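import Pool.Agent.Lib_MP_36b788.ShDefs
import Pool.Agent.Lib_MP_36b788b.SdeSt
import Pool.Agent.Lib_MP_36b788.SdeLaw
import Pool.Agent.Lib_MP_36b788.PathR2
import Pool.Agent.Lib_MP_36b788.Trunc
import Pool.Agent.Lib_MP_36b788.SdeA

/-!
# HTIGHT: uniform second moment

PROOF. `k0 =` that of r2_drift (`Noise2` for the Gaussian: gauss_noise2), its `h0, C0`. First `x = 0`. For the box chain with the Gaussian,
`∫ R2f(G)_0 dchainLaw n ≤ (1-h/2)^n∫R2f(G)_0 dρ^L + 2C0 ≤ 3^dσ² + 2C0`, `σ² = ∫‖H_0(0)‖²` (`R2f ≥ 0`; induction on `n`: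
`∫ f dchainLaw (n+1) = ∫∫ f(stp G ξ)dγ^ι dchainLaw n`, `integral_map`, `integral_prod`; integrability by the same induction), and
`‖G_0‖² ≤ R2f(G)_0`. law_chain: the same bound for `∫‖rc_n(0)‖² dP`. strong_conv (`T := t`): for `h = t/n`, `n → ∞` and then `L → ∞`
`∫‖H_t(0)-rc_n(0)‖² ≤ C(δ+k²2^{-L}) ≤ 1`, so `∫‖H_t(0)‖² ≤ 2(3^dσ²+2C0)+2`. (`t = 0` is clear.) For other `x` use dynamo_shift
and init_shift (`ident`: `∫‖H_0(x)‖² = σ²`).
-/

open MeasureTheory ProbabilityTheory Filter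
open scoped NNReal ENNReal Topology

namespace DynB

open Dyn

private theorem HTight_R2 {Ω : Type} [mΩ : MeasurableSpace Ω] {P : Measure Ω} {N d : ℕ} {k β : ℝ}
    {ℱ : Filtration ℝ≥0 mΩ} {B : Site d → Fin N → Fin N → ℝ≥0 → Ω → ℝ}
    {H : ℝ≥0 → Site d → Ω → E N} (hβ : 0 < β) (hH : IsDynamo P k 1 β ℱ B H) (h : ℝ≥0) (L n : ℕ)
    (x : boxS d L) :
    Integrable (fun ω => R2f (boxNet d L) (rc β k h L B (H 0) n ω) x) P := by
  unfold R2f
  refine integrable_finsetSum _ fun z _ => ?_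
  exact (((SdeSt_rc hβ hH h L n z).2).integrable_norm_pow (p := 2) (by norm_num)).const_mul _

private theorem HTight_meas {N d : ℕ} {ι : Type} [Fintype ι] (net : Net ι d) (x : ι) :
    Measurable (fun G : ι → E N => R2f net G x) := by
  unfold R2f
  refine Finset.measurable_sum _ fun z _ => ?_
  exact measurable_const.mul ((measurable_pi_apply z).norm.pow_const 2)

private theorem HTight_step {Ω : Type} [mΩ : MeasurableSpace Ω] {P : Measure Ω} {N d : ℕ} {k β : ℝ}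
    {ℱ : Filtration ℝ≥0 mΩ} {B : Site d → Fin N → Fin N → ℝ≥0 → Ω → ℝ}
    {H : ℝ≥0 → Site d → Ω → E N} (hβ : 0 < β) (hH : IsDynamo P k 1 β ℱ B H)
    (hI : IsInit P (H 0)) (h : ℝ≥0) (C : ℝ) (L n : ℕ) (x : boxS d L)
    (hdr : ∀ G : boxS d L → E N,
      Integrable (fun ξ => R2f (boxNet d L) (stp (boxNet d L) β h k G ξ) x)
        (pim (boxS d L) (stdGaussian (E N))) ∧
      ∫ ξ, R2f (boxNet d L) (stp (boxNet d L) β h k G ξ) x ∂(pim (boxS d L) (stdGaussian (E N))) ≤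
        (1 - 1 / 2 * (h : ℝ)) * R2f (boxNet d L) G x + C * h) :
    ∫ ω, R2f (boxNet d L) (rc β k h L B (H 0) (n + 1) ω) x ∂P ≤
      (1 - 1 / 2 * (h : ℝ)) * ∫ ω, R2f (boxNet d L) (rc β k h L B (H 0) n ω) x ∂P + C * h := by
  have hP := hH.prob
  have hβ0 : 0 < β := by linarith
  have hrcm : ∀ n, Measurable (rc β k h L B (H 0) n) := fun n =>
    (rc_adapted hβ0 hH h L n).mono (ℱ.le _) le_rfl
  have hRm := HTight_meas (N := N) (boxNet d L) x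
  have hst := (stp_continuous (N := N) hβ0 (NNReal.coe_nonneg h) k (boxNet d L)).measurable
  have hpim : IsProbabilityMeasure (pim (boxS d L) (stdGaussian (E N))) := by
    unfold pim
    infer_instance
  have hPn : IsProbabilityMeasure (P.map (rc β k h L B (H 0) n)) :=
    Measure.isProbabilityMeasure_map (hrcm n).aemeasurable
  have hch : P.map (rc β k h L B (H 0) (n + 1)) =
      ((P.map (rc β k h L B (H 0) n)).prod (pim (boxS d L) (stdGaussian (E N)))).map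
        (fun q => stp (boxNet d L) β h k q.1 q.2) := by
    rw [law_chain hβ0 hH hI h L (n + 1), law_chain hβ0 hH hI h L n]
    rfl
  have hi1 : Integrable (fun G : boxS d L → E N => R2f (boxNet d L) G x)
      (P.map (rc β k h L B (H 0) (n + 1))) :=
    (integrable_map_measure hRm.aestronglyMeasurable (hrcm _).aemeasurable).2
      (HTight_R2 hβ hH h L (n + 1) x)
  have hi0 : Integrable (fun G : boxS d L → E N => R2f (boxNet d L) G x)
      (P.map (rc β k h L B (H 0) n)) :=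
    (integrable_map_measure hRm.aestronglyMeasurable (hrcm _).aemeasurable).2
      (HTight_R2 hβ hH h L n x)
  have hi2 : Integrable (fun q : (boxS d L → E N) × (boxS d L → E N) =>
      R2f (boxNet d L) (stp (boxNet d L) β h k q.1 q.2) x)
      ((P.map (rc β k h L B (H 0) n)).prod (pim (boxS d L) (stdGaussian (E N)))) := by
    rw [hch] at hi1
    exact (integrable_map_measure hRm.aestronglyMeasurable hst.aemeasurable).1 hi1
  have e1 : ∫ ω, R2f (boxNet d L) (rc β k h L B (H 0) (n + 1) ω) x ∂P =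
      ∫ G, R2f (boxNet d L) G x ∂(P.map (rc β k h L B (H 0) (n + 1))) :=
    (integral_map (hrcm _).aemeasurable hRm.aestronglyMeasurable).symm
  have e2 : ∫ G, R2f (boxNet d L) G x ∂(P.map (rc β k h L B (H 0) (n + 1))) =
      ∫ G, ∫ ξ, R2f (boxNet d L) (stp (boxNet d L) β h k G ξ) x
        ∂(pim (boxS d L) (stdGaussian (E N))) ∂(P.map (rc β k h L B (H 0) n)) := by
    rw [hch, integral_map hst.aemeasurable hRm.aestronglyMeasurable, integral_prod _ hi2]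
  have e3 : ∫ G, ∫ ξ, R2f (boxNet d L) (stp (boxNet d L) β h k G ξ) x
        ∂(pim (boxS d L) (stdGaussian (E N))) ∂(P.map (rc β k h L B (H 0) n)) ≤
      ∫ G, ((1 - 1 / 2 * (h : ℝ)) * R2f (boxNet d L) G x + C * h)
        ∂(P.map (rc β k h L B (H 0) n)) :=
    integral_mono hi2.integral_prod_left
      ((hi0.const_mul (1 - 1 / 2 * (h : ℝ))).add (integrable_const (C * (h : ℝ))))
      (fun G => (hdr G).2)
  have e4 : ∫ G, ((1 - 1 / 2 * (h : ℝ)) * R2f (boxNet d L) G x + C * h)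
        ∂(P.map (rc β k h L B (H 0) n)) =
      (1 - 1 / 2 * (h : ℝ)) * ∫ G, R2f (boxNet d L) G x ∂(P.map (rc β k h L B (H 0) n)) +
        C * h := by
    rw [integral_add (hi0.const_mul _) (integrable_const _), integral_const_mul, integral_const]
    simp
  have e5 : ∫ G, R2f (boxNet d L) G x ∂(P.map (rc β k h L B (H 0) n)) =
      ∫ ω, R2f (boxNet d L) (rc β k h L B (H 0) n ω) x ∂P :=
    integral_map (hrcm _).aemeasurable hRm.aestronglyMeasurable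
  rw [e1, e2]
  refine e3.trans (le_of_eq ?_)
  rw [e4, e5]

private theorem HTight_zero {Ω : Type} [mΩ : MeasurableSpace Ω] {P : Measure Ω} {N d : ℕ} {k β : ℝ}
    {ℱ : Filtration ℝ≥0 mΩ} {B : Site d → Fin N → Fin N → ℝ≥0 → Ω → ℝ}
    {H : ℝ≥0 → Site d → Ω → E N} (hβ : 0 < β) (hH : IsDynamo P k 1 β ℱ B H)
    (hI : IsInit P (H 0)) (h : ℝ≥0) (L : ℕ) (x : boxS d L) :
    ∫ ω, R2f (boxNet d L) (rc β k h L B (H 0) 0 ω) x ∂P ≤ 3 ^ d * ∫ ω, ‖H 0 0 ω‖ ^ 2 ∂P := by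
  have hid : ∀ z : Site d, ∫ ω, ‖H 0 z ω‖ ^ 2 ∂P = ∫ ω, ‖H 0 0 ω‖ ^ 2 ∂P := fun z =>
    ((hI.ident z).comp (measurable_norm.pow_const 2)).integral_eq
  unfold R2f
  rw [integral_finsetSum _ fun z _ =>
    (((SdeSt_rc hβ hH h L 0 z).2).integrable_norm_pow (p := 2) (by norm_num)).const_mul _]
  have h1 : ∀ z : boxS d L, ∫ ω, (1 / 2 : ℝ) ^ (boxNet d L).dist x z *
      ‖rc β k h L B (H 0) 0 ω z‖ ^ 2 ∂P =
      (1 / 2 : ℝ) ^ (boxNet d L).dist x z * ∫ ω, ‖H 0 0 ω‖ ^ 2 ∂P := by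
    intro z
    rw [integral_const_mul]
    congr 1
    exact hid z
  rw [Finset.sum_congr rfl fun z _ => h1 z, ← Finset.sum_mul]
  exact mul_le_mul_of_nonneg_right ((boxNet d L).sum_half x)
    (integral_nonneg fun ω => by positivity)

private theorem HTight_origin {Ω : Type} [mΩ : MeasurableSpace Ω] {P : Measure Ω} {N d : ℕ}
    {k β h0 C : ℝ}
    {ℱ : Filtration ℝ≥0 mΩ} {B : Site d → Fin N → Fin N → ℝ≥0 → Ω → ℝ}
    {H : ℝ≥0 → Site d → Ω → E N} (hβ : 0 < β) (hk : 0 ≤ k) (hH : IsDynamo P k 1 β ℱ B H)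
    (hI : IsInit P (H 0)) (hh0 : 0 < h0) (hh1 : h0 ≤ 1) (hC : 0 < C)
    (hdr : ∀ (L : ℕ) (h : ℝ), 0 < h → h < h0 → ∀ (G : boxS d L → E N) (x : boxS d L),
      Integrable (fun ξ => R2f (boxNet d L) (stp (boxNet d L) β h k G ξ) x)
        (pim (boxS d L) (stdGaussian (E N))) ∧
      ∫ ξ, R2f (boxNet d L) (stp (boxNet d L) β h k G ξ) x ∂(pim (boxS d L) (stdGaussian (E N))) ≤
        (1 - 1 / 2 * h) * R2f (boxNet d L) G x + C * h) (t : ℝ≥0) :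
    ∫ ω, ‖H t 0 ω‖ ^ 2 ∂P ≤ 2 * (3 ^ d * ∫ ω, ‖H 0 0 ω‖ ^ 2 ∂P + 2 * C) + 2 := by
  have hP := hH.prob
  have hσ : 0 ≤ ∫ ω, ‖H 0 0 ω‖ ^ 2 ∂P := integral_nonneg fun ω => by positivity
  set σ : ℝ := ∫ ω, ‖H 0 0 ω‖ ^ 2 ∂P with hσd
  have h3 : (1 : ℝ) ≤ 3 ^ d := one_le_pow₀ (by norm_num)
  rcases eq_or_lt_of_le (zero_le : 0 ≤ t) with ht | ht
  · rw [← ht, ← hσd]
    nlinarith
  -- the chain
  have hchain : ∀ (h : ℝ≥0), 0 < h → (h : ℝ) < h0 → ∀ (L n : ℕ) (x : boxS d L),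
      ∫ ω, R2f (boxNet d L) (rc β k h L B (H 0) n ω) x ∂P ≤ 3 ^ d * σ + 2 * C := by
    intro h hh hlt L n x
    have hhr : (0 : ℝ) < h := by exact_mod_cast hh
    induction n with
    | zero =>
      have := HTight_zero hβ hH hI h L x
      linarith
    | succ n ih =>
      have h4 := HTight_step hβ hH hI h C L n x (fun G => hdr L h hhr hlt G x)
      have h5 : (1 - 1 / 2 * (h : ℝ)) * ∫ ω, R2f (boxNet d L) (rc β k h L B (H 0) n ω) x ∂P ≤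
          (1 - 1 / 2 * (h : ℝ)) * (3 ^ d * σ + 2 * C) :=
        mul_le_mul_of_nonneg_left ih (by linarith)
      have h6 : 0 ≤ (h : ℝ) * (3 ^ d * σ) := by positivity
      nlinarith
  obtain ⟨C1, hC1, hsc⟩ := strong_conv hβ hk hH t
  obtain ⟨L, hL⟩ : ∃ n : ℕ, k ^ 2 * (1 / 2 : ℝ) ^ n ≤ 1 / (2 * C1) := by
    have h1 : Tendsto (fun n : ℕ => k ^ 2 * (1 / 2 : ℝ) ^ n) atTop (𝓝 (k ^ 2 * 0)) :=
      (tendsto_pow_atTop_nhds_zero_of_lt_one (by norm_num) (by norm_num)).const_mul _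
    rw [mul_zero] at h1
    exact (h1.eventually_le_const (show (0 : ℝ) < 1 / (2 * C1) by positivity)).exists
  obtain ⟨h1, h1p, hs⟩ := hsc (1 / (2 * C1)) (by positivity)
  -- the time step
  have hmin : 0 < min h1 (Real.toNNReal (h0 / 2)) := lt_min h1p (by
    rw [Real.toNNReal_pos]
    positivity)
  obtain ⟨n, hn⟩ := exists_nat_gt (t / min h1 (Real.toNNReal (h0 / 2)))
  have hn0 : 0 < (n : ℝ≥0) := lt_of_le_of_lt zero_le hn
  set h : ℝ≥0 := t / n with hhd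
  have hh : 0 < h := div_pos ht hn0
  have hhle : h ≤ min h1 (Real.toNNReal (h0 / 2)) := by
    rw [hhd, div_le_iff₀ hn0]
    rw [div_lt_iff₀ hmin] at hn
    rw [mul_comm]
    exact hn.le
  have hle1 : h ≤ h1 := hhle.trans (min_le_left _ _)
  have hlt0 : (h : ℝ) < h0 := by
    have h4 : h ≤ Real.toNNReal (h0 / 2) := hhle.trans (min_le_right _ _)
    have h5 : (h : ℝ) ≤ (Real.toNNReal (h0 / 2) : ℝ) := by exact_mod_cast h4
    rw [Real.coe_toNNReal _ (by positivity)] at h5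
    linarith
  have hnh : (n : ℝ≥0) * h = t := by
    rw [hhd, mul_div_cancel₀ _ hn0.ne']
  have h00 : (0 : Site d) ∈ boxS d L := by
    unfold boxS
    rw [Finset.mem_Icc, Pi.le_def, Pi.le_def]
    constructor
    · intro i
      simp
    · intro i
      simp
  obtain ⟨hm, hc⟩ := hs h hh hle1 L n hnh.le ⟨0, h00⟩
  rw [hnh] at hc
  have hl0 : l1 ((⟨0, h00⟩ : boxS d L) : Site d) 0 = 0 := by
    unfold l1
    simp
  rw [hl0, pow_zero, one_mul] at hc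
  have hc' : ∫ ω, ‖H t 0 ω - rc β k h L B (H 0) n ω ⟨0, h00⟩‖ ^ 2 ∂P ≤ 1 := by
    refine hc.trans ?_
    have h4 : C1 * (1 / (2 * C1) + k ^ 2 * (1 / 2) ^ L) ≤ C1 * (1 / (2 * C1) + 1 / (2 * C1)) :=
      mul_le_mul_of_nonneg_left (by linarith) hC1.le
    refine h4.trans (le_of_eq ?_)
    field_simp
    norm_num
  have hr : ∫ ω, ‖rc β k h L B (H 0) n ω ⟨0, h00⟩‖ ^ 2 ∂P ≤ 3 ^ d * σ + 2 * C := by
    refine le_trans ?_ (hchain h hh hlt0 L n ⟨0, h00⟩)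
    refine integral_mono (hm.integrable_norm_pow (p := 2) (by norm_num))
      (HTight_R2 hβ hH h L n ⟨0, h00⟩) fun ω => ?_
    show ‖rc β k h L B (H 0) n ω ⟨0, h00⟩‖ ^ 2 ≤ R2f (boxNet d L) (rc β k h L B (H 0) n ω) ⟨0, h00⟩
    unfold R2f
    have h4 := Finset.single_le_sum (f := fun z : boxS d L =>
      (1 / 2 : ℝ) ^ (boxNet d L).dist ⟨0, h00⟩ z * ‖rc β k h L B (H 0) n ω z‖ ^ 2)
      (fun z _ => by positivity) (Finset.mem_univ (⟨0, h00⟩ : boxS d L))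
    simp only [(boxNet d L).dist_self, pow_zero, one_mul] at h4
    exact h4
  obtain ⟨CH, _, hHL⟩ := H_L2 hH t
  have hmH := (hHL t le_rfl 0).1
  have i1 : Integrable (fun ω => ‖H t 0 ω - rc β k h L B (H 0) n ω ⟨0, h00⟩‖ ^ 2) P :=
    (hmH.sub hm).integrable_norm_pow (by norm_num)
  have i2 : Integrable (fun ω => ‖rc β k h L B (H 0) n ω ⟨0, h00⟩‖ ^ 2) P :=
    hm.integrable_norm_pow (by norm_num)
  have h6 : ∀ ω, ‖H t 0 ω‖ ^ 2 ≤ 2 * ‖H t 0 ω - rc β k h L B (H 0) n ω ⟨0, h00⟩‖ ^ 2 +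
      2 * ‖rc β k h L B (H 0) n ω ⟨0, h00⟩‖ ^ 2 := by
    intro ω
    have h7 : ‖H t 0 ω‖ ≤ ‖H t 0 ω - rc β k h L B (H 0) n ω ⟨0, h00⟩‖ +
        ‖rc β k h L B (H 0) n ω ⟨0, h00⟩‖ := by
      have := norm_add_le (H t 0 ω - rc β k h L B (H 0) n ω ⟨0, h00⟩)
        (rc β k h L B (H 0) n ω ⟨0, h00⟩)
      rwa [sub_add_cancel] at this
    nlinarith [norm_nonneg (H t 0 ω), norm_nonneg (H t 0 ω - rc β k h L B (H 0) n ω ⟨0, h00⟩),
      norm_nonneg (rc β k h L B (H 0) n ω ⟨0, h00⟩),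
      sq_nonneg (‖H t 0 ω - rc β k h L B (H 0) n ω ⟨0, h00⟩‖ -
        ‖rc β k h L B (H 0) n ω ⟨0, h00⟩‖)]
  have h7 := integral_mono (hmH.integrable_norm_pow (p := 2) (by norm_num))
    ((i1.const_mul 2).add (i2.const_mul 2)) h6
  have h8 : ∫ ω, (2 * ‖H t 0 ω - rc β k h L B (H 0) n ω ⟨0, h00⟩‖ ^ 2 +
      2 * ‖rc β k h L B (H 0) n ω ⟨0, h00⟩‖ ^ 2) ∂P =
      2 * ∫ ω, ‖H t 0 ω - rc β k h L B (H 0) n ω ⟨0, h00⟩‖ ^ 2 ∂P +
      2 * ∫ ω, ‖rc β k h L B (H 0) n ω ⟨0, h00⟩‖ ^ 2 ∂P := by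
    rw [integral_add (i1.const_mul 2) (i2.const_mul 2), integral_const_mul, integral_const_mul]
  have h9 : ∫ ω, ‖H t 0 ω‖ ^ 2 ∂P ≤ ∫ ω, (2 * ‖H t 0 ω - rc β k h L B (H 0) n ω ⟨0, h00⟩‖ ^ 2 +
      2 * ‖rc β k h L B (H 0) n ω ⟨0, h00⟩‖ ^ 2) ∂P := h7
  linarith

theorem H_tight (N d : ℕ) (β : ℝ) (hβ : 0 < β) : ∃ k0 C : ℝ, 0 < k0 ∧ k0 ≤ 1 ∧ 0 < C ∧
    ∀ k, 0 ≤ k → k ≤ k0 → ∀ (S : Sol N d k 1 β) (t : ℝ≥0) (x : Site d),
      Integrable (fun ω => ‖S.H t x ω‖ ^ 2) S.P ∧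
      ∫ ω, ‖S.H t x ω‖ ^ 2 ∂S.P ≤ C * (1 + ∫ ω, ‖S.H 0 0 ω‖ ^ 2 ∂S.P) := by
  obtain ⟨k0, h0, C, hk0, hk1, hh0, hh1, hC, hdr⟩ := r2_drift N d β (by linarith)
  refine ⟨k0, 2 * 3 ^ d + 4 * C + 2, hk0, hk1, by positivity, fun k hk hkk S t x => ?_⟩
  have hH := S.dyn
  have hI := S.init
  obtain ⟨CM, hCM⟩ := hH.moments 2 t
  refine ⟨(hCM t le_rfl x).1, ?_⟩
  have h1 := HTight_origin (h0 := h0) (C := C) hβ hk (dynamo_shift hH x) (init_shift hI x) hh0 hh1 hC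
    (fun L h hh hlt G y => hdr (boxNet d L) h k (stdGaussian (E N)) hh hlt hk hkk
      (gauss_noise2 N) G y) t
  simp only [zero_add] at h1
  have h2 : ∫ ω, ‖S.H 0 x ω‖ ^ 2 ∂S.P = ∫ ω, ‖S.H 0 0 ω‖ ^ 2 ∂S.P :=
    ((hI.ident x).comp (measurable_norm.pow_const 2)).integral_eq
  rw [h2] at h1
  have hσ : 0 ≤ ∫ ω, ‖S.H 0 0 ω‖ ^ 2 ∂S.P := integral_nonneg fun ω => by positivity
  have h3 : (0 : ℝ) < 3 ^ d := by positivity
  refine h1.trans ?_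
  nlinarith [mul_nonneg hC.le hσ, mul_nonneg h3.le hσ]

end DynB
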