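import Pool.Agent.Lib_MP_36b788.MSF
import Pool.Agent.Lib_MP_36b788b.SdeSt
import Pool.Agent.Lib_MP_36b788.SdeLaw

/-!
# MSA: discretisation of the test functional

PROOF. Constants `C` of strong_conv and of l2cont with `T := S`. Write `n = ⌈s/h⌉₊`, `i_q = ⌊(T+τ_q)/h⌋₊`. `s ≤ nh ≤ s+h`,
`T+τ_q-h ≤ i_qh ≤ T+τ_q`, so `|(n+i_q)h-(s+T+τ_q)| ≤ h` and `(n+i_q)h ≤ S` (`h ≤ 1`). Fdisc_prod: the product equals
`exp(iΣ⟪u_q, rc_{n+i_q}(x_q)⟫)` (`x_q` in the box: `|x_q|₁ ≤ R ≤ L`), so by ech_diff the difference is at most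
`Σ_q‖u q‖ ∫‖H_{s+T+τ_q}(x_q)-rc_{n+i_q}(x_q)‖ ≤ Σ_q‖u q‖ (√(C h) + √(2^R C(δ'+k²2^{-L})))` (Jensen, l2cont, strong_conv with
`(1/2)^{|x_q|} ≥ (1/2)^R`). Choose `δ'` and (if `k ≠ 0`) `L1 ≥ R` with `k²2^{-L1} ≤ δ'`, then `h0`. For `k = 0` the boundary term is `0`.
-/

open MeasureTheory ProbabilityTheory Filter
open scoped NNReal ENNReal Topology

namespace DynB

open Dyn

private theorem MSA_jensen {Ω : Type} [MeasurableSpace Ω] {P : Measure Ω} [IsProbabilityMeasure P]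
    {N : ℕ} {f : Ω → E N} (hf : MemLp f 2 P) {η : ℝ} (hη : 0 < η)
    (h : ∫ ω, ‖f ω‖ ^ 2 ∂P ≤ η ^ 2) : ∫ ω, ‖f ω‖ ∂P ≤ η := by
  have i2 : Integrable (fun ω => ‖f ω‖ ^ 2) P := hf.integrable_norm_pow (by norm_num)
  have h1 : ∀ ω, ‖f ω‖ ≤ (2 * η)⁻¹ * ‖f ω‖ ^ 2 + η / 2 := by
    intro ω
    have h2 : (2 * η)⁻¹ * ‖f ω‖ ^ 2 + η / 2 - ‖f ω‖ = (2 * η)⁻¹ * (‖f ω‖ - η) ^ 2 := by
      field_simp
      ring
    have h3 : 0 ≤ (2 * η)⁻¹ * (‖f ω‖ - η) ^ 2 := by positivity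
    linarith
  have h2 := integral_mono_of_nonneg (Filter.Eventually.of_forall fun ω => norm_nonneg (f ω))
    ((i2.const_mul (2 * η)⁻¹).add (integrable_const (η / 2))) (Filter.Eventually.of_forall h1)
  have h3 : ∫ ω, ((2 * η)⁻¹ * ‖f ω‖ ^ 2 + η / 2) ∂P = (2 * η)⁻¹ * ∫ ω, ‖f ω‖ ^ 2 ∂P + η / 2 := by
    rw [integral_add (i2.const_mul _) (integrable_const _), integral_const_mul, integral_const]
    simp
  have h4 : (2 * η)⁻¹ * ∫ ω, ‖f ω‖ ^ 2 ∂P ≤ (2 * η)⁻¹ * η ^ 2 :=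
    mul_le_mul_of_nonneg_left h (by positivity)
  have h5 : (2 * η)⁻¹ * η ^ 2 = η / 2 := by
    field_simp
  have h6 : ∫ ω, ‖f ω‖ ∂P ≤ ∫ ω, ((2 * η)⁻¹ * ‖f ω‖ ^ 2 + η / 2) ∂P := h2
  linarith

private theorem MSA_box {d L R : ℕ} (x : Site d) (hx : l1 x 0 ≤ R) (hL : R ≤ L) : x ∈ boxS d L := by
  unfold boxS
  rw [Finset.mem_Icc, Pi.le_def, Pi.le_def]
  have h1 : ∀ i, (x i).natAbs ≤ L := by
    intro i
    have h2 : (x i - (0 : Site d) i).natAbs ≤ l1 x 0 := by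
      unfold l1
      exact Finset.single_le_sum (f := fun i => (x i - (0 : Site d) i).natAbs)
        (fun j _ => Nat.zero_le _) (Finset.mem_univ i)
    have h3 : (x i - (0 : Site d) i).natAbs = (x i).natAbs := by simp
    omega
  constructor
  · intro i
    have := h1 i
    omega
  · intro i
    have := h1 i
    omega

private theorem MSA_time {h s t : ℝ≥0} (hh : 0 < h) :
    ((⌈s / h⌉₊ + ⌊t / h⌋₊ : ℕ) : ℝ≥0) * h ≤ s + t + h ∧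
    s + t ≤ ((⌈s / h⌉₊ + ⌊t / h⌋₊ : ℕ) : ℝ≥0) * h + h := by
  have h1 : s ≤ (⌈s / h⌉₊ : ℝ≥0) * h := (div_le_iff₀ hh).1 (Nat.le_ceil _)
  have h2 : (⌈s / h⌉₊ : ℝ≥0) * h ≤ s + h := by
    have h3 : (⌈s / h⌉₊ : ℝ≥0) ≤ s / h + 1 := (Nat.ceil_lt_add_one zero_le).le
    have h4 := mul_le_mul_of_nonneg_right h3 h.2
    refine le_trans h4 (le_of_eq ?_)
    show (s / h + 1) * h = s + h
    rw [add_mul, div_mul_cancel₀ _ hh.ne', one_mul]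
  have h3 : (⌊t / h⌋₊ : ℝ≥0) * h ≤ t := (le_div_iff₀ hh).1 (Nat.floor_le zero_le)
  have h4 : t ≤ ((⌊t / h⌋₊ : ℝ≥0) + 1) * h := (div_le_iff₀ hh).1 (Nat.lt_floor_add_one _).le
  rw [Nat.cast_add, add_mul]
  constructor
  · calc (⌈s / h⌉₊ : ℝ≥0) * h + (⌊t / h⌋₊ : ℝ≥0) * h ≤ (s + h) + t := add_le_add h2 h3
      _ = s + t + h := by ring
  · calc s + t ≤ (⌈s / h⌉₊ : ℝ≥0) * h + ((⌊t / h⌋₊ : ℝ≥0) + 1) * h := add_le_add h1 h4
      _ = (⌈s / h⌉₊ : ℝ≥0) * h + (⌊t / h⌋₊ : ℝ≥0) * h + h := by ring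

private theorem MSA_sq {Ω : Type} [MeasurableSpace Ω] {P : Measure Ω} {N : ℕ} {f g w : Ω → E N}
    (hf : MemLp f 2 P) (hg : MemLp g 2 P) (hw : MemLp w 2 P) {a b : ℝ}
    (h1 : ∫ ω, ‖f ω - g ω‖ ^ 2 ∂P ≤ a) (h2 : ∫ ω, ‖g ω - w ω‖ ^ 2 ∂P ≤ b) :
    ∫ ω, ‖f ω - w ω‖ ^ 2 ∂P ≤ 2 * a + 2 * b := by
  have i1 : Integrable (fun ω => ‖f ω - g ω‖ ^ 2) P := (hf.sub hg).integrable_norm_pow (by norm_num)
  have i2 : Integrable (fun ω => ‖g ω - w ω‖ ^ 2) P := (hg.sub hw).integrable_norm_pow (by norm_num)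
  have h3 : ∀ ω, ‖f ω - w ω‖ ^ 2 ≤ 2 * ‖f ω - g ω‖ ^ 2 + 2 * ‖g ω - w ω‖ ^ 2 := by
    intro ω
    have h4 : ‖f ω - w ω‖ ≤ ‖f ω - g ω‖ + ‖g ω - w ω‖ := norm_sub_le_norm_sub_add_norm_sub _ _ _
    nlinarith [norm_nonneg (f ω - w ω), sq_nonneg (‖f ω - g ω‖ - ‖g ω - w ω‖),
      norm_nonneg (f ω - g ω), norm_nonneg (g ω - w ω)]
  have h4 := integral_mono_of_nonneg (Filter.Eventually.of_forall fun ω =>
    (by positivity : (0 : ℝ) ≤ ‖f ω - w ω‖ ^ 2)) ((i1.const_mul 2).add (i2.const_mul 2))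
    (Filter.Eventually.of_forall h3)
  have h5 : ∫ ω, (2 * ‖f ω - g ω‖ ^ 2 + 2 * ‖g ω - w ω‖ ^ 2) ∂P =
      2 * ∫ ω, ‖f ω - g ω‖ ^ 2 ∂P + 2 * ∫ ω, ‖g ω - w ω‖ ^ 2 ∂P := by
    rw [integral_add (i1.const_mul 2) (i2.const_mul 2), integral_const_mul, integral_const_mul]
  have h6 : ∫ ω, ‖f ω - w ω‖ ^ 2 ∂P ≤
      ∫ ω, (2 * ‖f ω - g ω‖ ^ 2 + 2 * ‖g ω - w ω‖ ^ 2) ∂P := h4
  linarith

theorem ms_approx {Ω : Type} [mΩ : MeasurableSpace Ω] {P : Measure Ω} {N d : ℕ} {k β : ℝ}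
    {ℱ : Filtration ℝ≥0 mΩ} {B : Site d → Fin N → Fin N → ℝ≥0 → Ω → ℝ}
    {H : ℝ≥0 → Site d → Ω → E N} (hβ : 0 < β) (hk : 0 ≤ k) (hH : IsDynamo P k 1 β ℱ B H)
    (I : Finset (ℝ≥0 × Site d)) (u : ℝ≥0 × Site d → E N) (S : ℝ≥0) (R : ℕ)
    (hR : ∀ q ∈ I, l1 q.2 0 ≤ R) (δ : ℝ) (hδ : 0 < δ) :
    ∃ L1 : ℕ, ∀ L, (L1 ≤ L ∨ (k = 0 ∧ R ≤ L)) → ∃ h0 : ℝ≥0, 0 < h0 ∧ ∀ h : ℝ≥0, 0 < h → h ≤ h0 →
      ∀ (T s : ℝ≥0) (M : ℕ), (∀ q ∈ I, s + T + q.1 + 1 ≤ S) → (∀ q ∈ I, ⌊(T + q.1) / h⌋₊ < M) →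
      ∀ Z : Ω → ℂ, Measurable Z → (∀ ω, ‖Z ω‖ ≤ 1) →
      ‖∫ ω, Z ω * Xf' H I u (s + T) ω ∂P -
        ∫ ω, Z ω * ∏ i ∈ Finset.range M, Fdisc I u (fun q => ⌊(T + q.1) / h⌋₊) i
          (rc β k h L B (H 0) (⌈s / h⌉₊ + i) ω) ∂P‖ ≤ δ := by
  have hP := hH.prob
  obtain ⟨C, hC, hsc⟩ := strong_conv hβ hk hH S
  obtain ⟨C', hC', hl⟩ := l2cont hβ hH S
  obtain ⟨CH, hCH, hHL⟩ := H_L2 hH S
  have hUs : 0 ≤ ∑ q ∈ I, ‖u q‖ := Finset.sum_nonneg fun q _ => norm_nonneg _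
  set U : ℝ := ∑ q ∈ I, ‖u q‖ + 1 with hU
  have hU0 : 0 < U := by positivity
  set η : ℝ := δ / U with hη
  have hη0 : 0 < η := by positivity
  set δ' : ℝ := η ^ 2 / (8 * 2 ^ R * C) with hδ'
  have hδ'0 : 0 < δ' := by positivity
  have hex : ∃ n : ℕ, k ^ 2 * (1 / 2 : ℝ) ^ n ≤ δ' := by
    have h1 : Tendsto (fun n : ℕ => k ^ 2 * (1 / 2 : ℝ) ^ n) atTop (𝓝 (k ^ 2 * 0)) :=
      (tendsto_pow_atTop_nhds_zero_of_lt_one (by norm_num) (by norm_num)).const_mul _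
    rw [mul_zero] at h1
    exact (h1.eventually_le_const hδ'0).exists
  obtain ⟨n0, hn0⟩ := hex
  refine ⟨max n0 R, fun L hL => ?_⟩
  have hRL : R ≤ L := by
    rcases hL with hL | hL
    · exact (le_max_right _ _).trans hL
    · exact hL.2
  have hkL : k ^ 2 * (1 / 2 : ℝ) ^ L ≤ δ' := by
    rcases hL with hL | hL
    · refine le_trans ?_ hn0
      refine mul_le_mul_of_nonneg_left ?_ (sq_nonneg k)
      exact pow_le_pow_of_le_one (by norm_num) (by norm_num) ((le_max_left _ _).trans hL)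
    · rw [hL.1]
      simpa using hδ'0.le
  obtain ⟨h1, h1p, hs⟩ := hsc δ' hδ'0
  refine ⟨min h1 (min 1 (Real.toNNReal (η ^ 2 / (4 * C')))), ?_, ?_⟩
  · refine lt_min h1p (lt_min one_pos ?_)
    rw [Real.toNNReal_pos]
    positivity
  intro h hh hle T s M hq hM Z hZ hZ1
  have hle1 : h ≤ h1 := hle.trans (min_le_left _ _)
  have hle2 : h ≤ 1 := hle.trans ((min_le_right _ _).trans (min_le_left _ _))
  have hle3 : C' * (h : ℝ) ≤ η ^ 2 / 4 := by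
    have h3 : h ≤ Real.toNNReal (η ^ 2 / (4 * C')) :=
      hle.trans ((min_le_right _ _).trans (min_le_right _ _))
    have h4 : (h : ℝ) ≤ (Real.toNNReal (η ^ 2 / (4 * C')) : ℝ) := by exact_mod_cast h3
    rw [Real.coe_toNNReal _ (by positivity)] at h4
    rw [le_div_iff₀ (by positivity)] at h4
    linarith
  have hHm : ∀ t x, Measurable (H t x) := fun t x => (hH.adapted t x).mono (ℱ.le t) le_rfl
  -- closeness in time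
  have hl' : ∀ a b : ℝ≥0, a ≤ S → b ≤ S → a ≤ b + h → b ≤ a + h → ∀ x,
      ∫ ω, ‖H a x ω - H b x ω‖ ^ 2 ∂P ≤ η ^ 2 / 4 := by
    intro a b ha hb hab hba x
    rcases le_total a b with h2 | h2
    · have h3 := hl a b h2 hb x
      have h4 : (b : ℝ) - a ≤ h := by
        have : (b : ℝ) ≤ a + h := by exact_mod_cast hba
        linarith
      have h5 : ∫ ω, ‖H a x ω - H b x ω‖ ^ 2 ∂P = ∫ ω, ‖H b x ω - H a x ω‖ ^ 2 ∂P := by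
        congr 1
        funext ω
        rw [norm_sub_rev]
      rw [h5]
      refine h3.trans (le_trans (mul_le_mul_of_nonneg_left h4 hC'.le) hle3)
    · have h3 := hl b a h2 ha x
      have h4 : (a : ℝ) - b ≤ h := by
        have : (a : ℝ) ≤ b + h := by exact_mod_cast hab
        linarith
      exact h3.trans (le_trans (mul_le_mul_of_nonneg_left h4 hC'.le) hle3)
  -- the estimate for one point
  have hpt : ∀ q ∈ I, MemLp (fun ω => H (s + T + q.1) q.2 ω -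
      ext0 (rc β k h L B (H 0) (⌈s / h⌉₊ + ⌊(T + q.1) / h⌋₊) ω) q.2) 2 P ∧
      ∫ ω, ‖H (s + T + q.1) q.2 ω -
        ext0 (rc β k h L B (H 0) (⌈s / h⌉₊ + ⌊(T + q.1) / h⌋₊) ω) q.2‖ ∂P ≤ η := by
    intro q hqI
    have hb := MSA_box q.2 (hR q hqI) hRL
    have hext : ∀ ω, ext0 (rc β k h L B (H 0) (⌈s / h⌉₊ + ⌊(T + q.1) / h⌋₊) ω) q.2 =
        rc β k h L B (H 0) (⌈s / h⌉₊ + ⌊(T + q.1) / h⌋₊) ω ⟨q.2, hb⟩ := by
      intro ω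
      unfold ext0
      rw [dif_pos hb]
    simp only [hext]
    obtain ⟨ht1, ht2⟩ := MSA_time (s := s) (t := T + q.1) hh
    have hqS := hq q hqI
    have hS1 : s + T + q.1 ≤ S := le_trans (le_add_of_nonneg_right zero_le) hqS
    have hS2 : ((⌈s / h⌉₊ + ⌊(T + q.1) / h⌋₊ : ℕ) : ℝ≥0) * h ≤ S := by
      refine ht1.trans (le_trans ?_ hqS)
      rw [← add_assoc]
      exact add_le_add le_rfl hle2
    obtain ⟨hm, hc⟩ := hs h hh hle1 L _ hS2 ⟨q.2, hb⟩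
    have hmH1 := (hHL _ hS1 q.2).1
    have hmH2 := (hHL _ hS2 q.2).1
    have hc1 := hl' _ _ hS1 hS2 (by rw [add_assoc]; exact ht2)
      (by rw [add_assoc s T]; exact ht1) q.2
    have hc2 : ∫ ω, ‖H (((⌈s / h⌉₊ + ⌊(T + q.1) / h⌋₊ : ℕ) : ℝ≥0) * h) q.2 ω -
        rc β k h L B (H 0) (⌈s / h⌉₊ + ⌊(T + q.1) / h⌋₊) ω ⟨q.2, hb⟩‖ ^ 2 ∂P ≤ η ^ 2 / 4 := by
      set A : ℝ := ∫ ω, ‖H (((⌈s / h⌉₊ + ⌊(T + q.1) / h⌋₊ : ℕ) : ℝ≥0) * h) q.2 ω -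
        rc β k h L B (H 0) (⌈s / h⌉₊ + ⌊(T + q.1) / h⌋₊) ω ⟨q.2, hb⟩‖ ^ 2 ∂P with hA
      have hA0 : 0 ≤ A := integral_nonneg fun ω => by positivity
      have e1 : (1 / 2 : ℝ) ^ R * A ≤ (1 / 2 : ℝ) ^ l1 q.2 0 * A :=
        mul_le_mul_of_nonneg_right (pow_le_pow_of_le_one (by norm_num) (by norm_num)
          (hR q hqI)) hA0
      have e2 : (1 / 2 : ℝ) ^ R * A ≤ C * (δ' + δ') :=
        (e1.trans hc).trans (mul_le_mul_of_nonneg_left (by linarith) hC.le)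
      have e3 : (2 : ℝ) ^ R * ((1 / 2 : ℝ) ^ R * A) = A := by
        rw [← mul_assoc, ← mul_pow]
        norm_num
      have e4 := mul_le_mul_of_nonneg_left e2 (show (0 : ℝ) ≤ 2 ^ R by positivity)
      rw [e3] at e4
      refine e4.trans (le_of_eq ?_)
      rw [hδ']
      field_simp
      ring
    refine ⟨hmH1.sub hm, MSA_jensen (hmH1.sub hm) hη0 ?_⟩
    have e5 := MSA_sq hmH1 hmH2 hm hc1 hc2
    refine le_trans e5 (le_of_eq (by ring))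
  -- the difference of the integrals
  have hrcm : ∀ n, Measurable (rc β k h L B (H 0) n) := fun n =>
    (rc_adapted (hβ) hH h L n).mono (ℱ.le _) le_rfl
  have hXm : Measurable (Xf' H I u (s + T)) := by
    have e1 : Xf' H I u (s + T) = fun ω => ech I u (fun q => H (s + T + q.1) q.2 ω) := rfl
    rw [e1]
    exact (ech_meas I u).comp (measurable_pi_iff.2 fun q => hHm _ _)
  have hX1 : ∀ ω, ‖Xf' H I u (s + T) ω‖ = 1 := fun ω => by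
    rw [Xf'_eq]
    exact ech_norm _ _ _
  have hprod : ∀ ω, ∏ i ∈ Finset.range M, Fdisc I u (fun q => ⌊(T + q.1) / h⌋₊) i
          (rc β k h L B (H 0) (⌈s / h⌉₊ + i) ω) =
      ech I u (fun q => ext0 (rc β k h L B (H 0) (⌈s / h⌉₊ + ⌊(T + q.1) / h⌋₊) ω) q.2) := by
    intro ω
    exact Fdisc_prod I u (fun q => ⌊(T + q.1) / h⌋₊) M hM
      (fun i => rc β k h L B (H 0) (⌈s / h⌉₊ + i) ω)
  have hYm : Measurable (fun ω => ∏ i ∈ Finset.range M, Fdisc I u (fun q => ⌊(T + q.1) / h⌋₊) i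
          (rc β k h L B (H 0) (⌈s / h⌉₊ + i) ω)) :=
    Finset.measurable_prod _ fun i _ => (Fdisc_meas I u _ i).comp (hrcm _)
  have hY1 : ∀ ω, ‖∏ i ∈ Finset.range M, Fdisc I u (fun q => ⌊(T + q.1) / h⌋₊) i
          (rc β k h L B (H 0) (⌈s / h⌉₊ + i) ω)‖ = 1 := fun ω => by
    rw [hprod]
    exact ech_norm _ _ _
  have i1 : Integrable (fun ω => Z ω * Xf' H I u (s + T) ω) P :=
    Integrable.of_bound (C := 1) (hZ.mul hXm).aestronglyMeasurable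
      (Filter.Eventually.of_forall fun ω => by rw [norm_mul, hX1, mul_one]; exact hZ1 ω)
  have i2 : Integrable (fun ω => Z ω * ∏ i ∈ Finset.range M,
      Fdisc I u (fun q => ⌊(T + q.1) / h⌋₊) i (rc β k h L B (H 0) (⌈s / h⌉₊ + i) ω)) P :=
    Integrable.of_bound (C := 1) (hZ.mul hYm).aestronglyMeasurable
      (Filter.Eventually.of_forall fun ω => by rw [norm_mul, hY1, mul_one]; exact hZ1 ω)
  rw [← integral_sub i1 i2]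
  have hdi : ∀ q ∈ I, Integrable (fun ω => ‖u q‖ * ‖H (s + T + q.1) q.2 ω -
      ext0 (rc β k h L B (H 0) (⌈s / h⌉₊ + ⌊(T + q.1) / h⌋₊) ω) q.2‖) P := fun q hqI =>
    ((hpt q hqI).1.integrable (by norm_num)).norm.const_mul _
  have hfin : ‖∫ ω, (Z ω * Xf' H I u (s + T) ω - Z ω * ∏ i ∈ Finset.range M,
      Fdisc I u (fun q => ⌊(T + q.1) / h⌋₊) i (rc β k h L B (H 0) (⌈s / h⌉₊ + i) ω)) ∂P‖ ≤
      ∫ ω, ∑ q ∈ I, ‖u q‖ * ‖H (s + T + q.1) q.2 ω -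
        ext0 (rc β k h L B (H 0) (⌈s / h⌉₊ + ⌊(T + q.1) / h⌋₊) ω) q.2‖ ∂P := by
    refine norm_integral_le_of_norm_le (integrable_finsetSum _ hdi)
      (Filter.Eventually.of_forall fun ω => ?_)
    rw [← mul_sub, norm_mul, hprod, Xf'_eq]
    refine le_trans (mul_le_mul_of_nonneg_right (hZ1 ω) (norm_nonneg _)) ?_
    rw [one_mul]
    exact ech_diff I u _ _
  refine hfin.trans ?_
  rw [integral_finsetSum _ hdi]
  have hsum : ∑ q ∈ I, ∫ ω, ‖u q‖ * ‖H (s + T + q.1) q.2 ω -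
        ext0 (rc β k h L B (H 0) (⌈s / h⌉₊ + ⌊(T + q.1) / h⌋₊) ω) q.2‖ ∂P ≤
      ∑ q ∈ I, ‖u q‖ * η := by
    refine Finset.sum_le_sum fun q hqI => ?_
    rw [integral_const_mul]
    exact mul_le_mul_of_nonneg_left (hpt q hqI).2 (norm_nonneg _)
  refine hsum.trans ?_
  rw [← Finset.sum_mul]
  have e6 : (∑ q ∈ I, ‖u q‖) * η ≤ U * η := mul_le_mul_of_nonneg_right (by rw [hU]; linarith) hη0.le
  refine e6.trans (le_of_eq ?_)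
  rw [hη]
  field_simp

end DynB
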