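import Pool.Agent.Lib_MP_36b788b.HTight
import Pool.Agent.Lib_MP_36b788.PhiLim
import Pool.Agent.Lib_MP_36b788.CharMix
import Pool.Agent.Lib_MP_36b788.LimInv
import Pool.Agent.Lib_MP_36b788.LimEx
import Pool.Agent.Lib_MP_36b788.MixCyl
import Pool.Agent.Lib_MP_36b788.MixAll

/-!
# MAIN1: the limit law for `ε = 1`

PROOF. `dirac_erg`: `shiftST s c 0 = 0`, everything is `0` or `1`. `erg_scale`: the map `σ_a f = fun q => a • f q` is measurable and commutes with
shifts: `(μ.map σ_a)(A ∩ shift⁻¹B) = μ(σ_a⁻¹A ∩ shift⁻¹(σ_a⁻¹B))`.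
`main_one`: `k1 = min` of those of mix_sde and H_tight. If there is no solution take `Measure.dirac 0`. Otherwise fix `S0`; `φ` from
phi_lim; limit_exists with `A = ℝ≥0 × Site d`, `K t q ω = S0.H (t+q.1) q.2 ω` (Xf'_eq), moments: H_tight and `‖v‖ ≤ 1+‖v‖²`. `inv`: char_inv;
`mix`: char_mix, mix_cyl, mix_all with `θ T = shiftST T 0`; `erg`: erg_of_mix with the hypothesis at `(T, 0)`.
-/

open MeasureTheory ProbabilityTheory Filter
open scoped NNReal ENNReal Topology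

namespace DynB

open Dyn

/-- scalar multiplication of a field is measurable -/
theorem Main1_smul_meas {N d : ℕ} (a : ℝ) :
    Measurable (fun (f : ℝ≥0 × Site d → E N) q => a • f q) :=
  measurable_pi_lambda _ fun q => (measurable_pi_apply q).const_smul a

theorem dirac_erg (N d : ℕ) : IsErg (Measure.dirac (0 : ℝ≥0 × Site d → E N)) := by
  have h0 : ∀ (s : ℝ≥0) (c : Site d), shiftST (N := N) s c 0 = 0 := fun s c => rfl
  refine ⟨inferInstance, fun s c => ?_, fun A B hA hB => ?_, fun A hA _ => ?_⟩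
  · rw [Measure.map_dirac' (shift_meas s c), h0]
  · have h1 : ∀ T : ℝ≥0, (Measure.dirac (0 : ℝ≥0 × Site d → E N))
        (A ∩ shiftST T 0 ⁻¹' B) = Measure.dirac (0 : ℝ≥0 × Site d → E N) A *
          Measure.dirac (0 : ℝ≥0 × Site d → E N) B := by
      intro T
      rw [Measure.dirac_apply' _ (hA.inter (shift_meas T 0 hB)), Measure.dirac_apply' _ hA,
        Measure.dirac_apply' _ hB]
      by_cases hxA : (0 : ℝ≥0 × Site d → E N) ∈ A
      · by_cases hxB : (0 : ℝ≥0 × Site d → E N) ∈ B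
        · have hx : (0 : ℝ≥0 × Site d → E N) ∈ A ∩ shiftST T 0 ⁻¹' B := ⟨hxA, hxB⟩
          rw [Set.indicator_of_mem hxA, Set.indicator_of_mem hxB, Set.indicator_of_mem hx]
          simp
        · rw [Set.indicator_of_mem hxA, Set.indicator_of_notMem hxB,
            Set.indicator_of_notMem fun h => hxB h.2]
          simp
      · rw [Set.indicator_of_notMem hxA, Set.indicator_of_notMem fun h => hxA h.1]
        simp
    simp only [h1]
    exact tendsto_const_nhds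
  · rw [Measure.dirac_apply' _ hA]
    by_cases hx : (0 : ℝ≥0 × Site d → E N) ∈ A
    · right
      rw [Set.indicator_of_mem hx]
      rfl
    · left
      rw [Set.indicator_of_notMem hx]

theorem erg_scale {N d : ℕ} (μ : Measure (ℝ≥0 × Site d → E N)) (hμ : IsErg μ) (a : ℝ) :
    IsErg (μ.map (fun f q => a • f q)) := by
  have hm := Main1_smul_meas (N := N) (d := d) a
  have hc : ∀ (s : ℝ≥0) (c : Site d),
      shiftST s c ∘ (fun (f : ℝ≥0 × Site d → E N) q => a • f q) =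
        (fun (f : ℝ≥0 × Site d → E N) q => a • f q) ∘ shiftST s c := fun s c => rfl
  have := hμ.prob
  refine ⟨Measure.isProbabilityMeasure_map hm.aemeasurable, fun s c => ?_, fun A B hA hB => ?_,
    fun A hA hi => ?_⟩
  · rw [Measure.map_map (shift_meas s c) hm, hc, ← Measure.map_map hm (shift_meas s c), hμ.inv]
  · rw [Measure.map_apply hm hA, Measure.map_apply hm hB]
    have h1 : ∀ T : ℝ≥0, (μ.map (fun (f : ℝ≥0 × Site d → E N) q => a • f q))
        (A ∩ shiftST T 0 ⁻¹' B) = μ ((fun (f : ℝ≥0 × Site d → E N) q => a • f q) ⁻¹' A ∩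
          shiftST T 0 ⁻¹' ((fun (f : ℝ≥0 × Site d → E N) q => a • f q) ⁻¹' B)) := by
      intro T
      rw [Measure.map_apply hm (hA.inter (shift_meas T 0 hB))]
      rfl
    simp only [h1]
    exact hμ.mix _ _ (hm hA) (hm hB)
  · rw [Measure.map_apply hm hA]
    refine hμ.erg _ (hm hA) fun s c => ?_
    exact (hm.measurePreserving μ).quasiMeasurePreserving.preimage_ae_eq (hi s c)

theorem main_one (N d : ℕ) (β : ℝ) (hβ : 0 < β)
    (hM0 : ∃ k1 : ℝ, 0 < k1 ∧ ∀ k, 0 ≤ k → k ≤ k1 → MixProp N d k β) :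
    ∃ k1 : ℝ, 0 < k1 ∧ ∀ k, 0 ≤ k → k ≤ k1 → ∃ μ : Measure (ℝ≥0 × Site d → E N), IsErg μ ∧
      ∀ (S : Sol N d k 1 β) I u, Tendsto (fun t : ℝ≥0 => ∫ ω, Xf' S.H I u t ω ∂S.P) atTop
        (𝓝 (∫ f, ech I u f ∂μ)) := by
  obtain ⟨ka, hka, hM⟩ := hM0
  obtain ⟨kb, C, hkb, -, hC, hT⟩ := H_tight N d β hβ
  refine ⟨min ka kb, lt_min hka hkb, fun k hk hkk => ?_⟩
  have hM := hM k hk (hkk.trans (min_le_left _ _))
  have hT := hT k hk (hkk.trans (min_le_right _ _))
  by_cases hne : Nonempty (Sol N d k 1 β)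
  swap
  · exact ⟨Measure.dirac 0, dirac_erg N d, fun S => absurd ⟨S⟩ hne⟩
  obtain ⟨S0⟩ := hne
  obtain ⟨φ, hφ⟩ := phi_lim hM
  have hP : IsProbabilityMeasure S0.P := S0.dyn.prob
  have hmeas : ∀ t x, Measurable (S0.H t x) := fun t x =>
    (S0.dyn.adapted t x).mono (S0.ℱ.le t) le_rfl
  obtain ⟨μ, hμp, hμ⟩ := limit_exists (P := S0.P)
    (fun (t : ℝ≥0) (q : ℝ≥0 × Site d) ω => S0.H (t + q.1) q.2 ω)
    (fun t q => hmeas _ _)
    (fun q => ⟨1 + C * (1 + ∫ ω, ‖S0.H 0 0 ω‖ ^ 2 ∂S0.P), fun t => by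
      obtain ⟨h1, h2⟩ := hT S0 (t + q.1) q.2
      have h3 : Integrable (fun ω => 1 + ‖S0.H (t + q.1) q.2 ω‖ ^ 2) S0.P :=
        (integrable_const _).add h1
      have h4 : ∀ ω, ‖S0.H (t + q.1) q.2 ω‖ ≤ 1 + ‖S0.H (t + q.1) q.2 ω‖ ^ 2 := fun ω => by
        nlinarith [sq_nonneg (‖S0.H (t + q.1) q.2 ω‖ - 1), norm_nonneg (S0.H (t + q.1) q.2 ω)]
      have h5 : Integrable (fun ω => ‖S0.H (t + q.1) q.2 ω‖) S0.P := by
        refine h3.mono' (hmeas _ _).norm.aestronglyMeasurable (ae_of_all _ fun ω => ?_)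
        rw [norm_norm]
        exact h4 ω
      refine ⟨h5, (integral_mono h5 h3 h4).trans ?_⟩
      rw [integral_add (integrable_const _) h1]
      simp only [integral_const, probReal_univ, one_smul]
      linarith⟩) φ (fun I u => hφ S0 I u)
  have hS : ∀ (S : Sol N d k 1 β) I u, Tendsto (fun t : ℝ≥0 => ∫ ω, Xf' S.H I u t ω ∂S.P) atTop
        (𝓝 (∫ f, ech I u f ∂μ)) := by
    intro S I u
    rw [hμ]
    exact hφ S I u
  have hinv := char_inv μ S0 hS
  have hmix : ∀ A B : Set (ℝ≥0 × Site d → E N), MeasurableSet A → MeasurableSet B →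
      Tendsto (fun T : ℝ≥0 => μ (A ∩ shiftST T 0 ⁻¹' B)) atTop (𝓝 (μ A * μ B)) :=
    mix_all μ (fun T => shiftST T 0) (fun T => shift_meas T 0) (fun T => hinv T 0)
      (mix_cyl μ (fun T => shiftST T 0) (fun T => shift_meas T 0) (fun T => hinv T 0)
        (fun I u J v => char_mix hM μ S0 (hS S0) I u J v))
  refine ⟨μ, ⟨hμp, hinv, hmix, fun A hA hi => ?_⟩, hS⟩
  exact erg_of_mix μ (fun T => shiftST T 0) hmix A hA fun T => hi T 0

end DynB
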