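import Pool.Agent.Lib_MP_36b788b.Main1
import Pool.Agent.Lib_MP_36b788.FddC

/-!
# MAIN2: the theorem for all `ε > 0`

PROOF. `k1` of main_one. Fix `k, ε`, `a = ε^{1/β} > 0`, `μ1` from main_one, `μ = μ1.map (fun f q => a⁻¹ • f q)`; `IsErg μ` by erg_scale. A solution
`H` for `ε` gives the solution `a • H` for `1` (dynamo_scale, init_scale with `adapted`), so fdd_of_char with
`K t q ω = a • H (t+q.1) q.2 ω` and the continuous bounded function `v ↦ g (a⁻¹ • v)` (as a complex function, then real parts or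
`Complex.ofReal` and `integral_ofReal`) gives `∫g(H_{t+·}) = ∫g(a⁻¹•(a•H_{t+·})) → ∫g(a⁻¹ • f|_I)dμ1 = ∫g(f|_I)dμ` (`integral_map`).
-/

open MeasureTheory ProbabilityTheory Filter
open scoped NNReal ENNReal Topology BoundedContinuousFunction

namespace DynB

open Dyn

theorem main_two (N d : ℕ) (β : ℝ) (hβ : 0 < β)
    (hM0 : ∃ k1 : ℝ, 0 < k1 ∧ ∀ k, 0 ≤ k → k ≤ k1 → MixProp N d k β) :
    ∃ k0 : ℝ, 0 < k0 ∧ ∀ k ε : ℝ, 0 ≤ k → k ≤ k0 → 0 < ε →
      ∃ μ : Measure (ℝ≥0 × Site d → E N), IsErg μ ∧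
      ∀ (Ω : Type) [mΩ : MeasurableSpace Ω] (P : Measure Ω) (ℱ : Filtration ℝ≥0 mΩ)
        (B : Site d → Fin N → Fin N → ℝ≥0 → Ω → ℝ) (H : ℝ≥0 → Site d → Ω → E N),
        IsDynamo P k ε β ℱ B H → IsInit P (H 0) →
        ∀ (I : Finset (ℝ≥0 × Site d)) (g : (I → E N) →ᵇ ℝ),
          Tendsto (fun t : ℝ≥0 => ∫ ω, g (fun q => H (t + q.1.1) q.1.2 ω) ∂P) atTop
            (𝓝 (∫ f, g (fun q => f q) ∂μ)) := by
  obtain ⟨k1, hk1, h1⟩ := main_one N d β hβ hM0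
  refine ⟨k1, hk1, fun k ε hk hkk hε => ?_⟩
  obtain ⟨μ1, hμ1, hlim⟩ := h1 k hk hkk
  have hβ0 : 0 < β := hβ
  obtain ⟨a, ha⟩ : ∃ a : ℝ, a = ε ^ (1 / β) := ⟨_, rfl⟩
  have ha0 : 0 < a := by
    rw [ha]
    exact Real.rpow_pos_of_pos hε _
  refine ⟨μ1.map (fun f q => a⁻¹ • f q), erg_scale μ1 hμ1 a⁻¹, ?_⟩
  intro Ω mΩ P ℱ B H hdyn hinit I g
  have hdyn' := dynamo_scale hε hβ0 hdyn
  rw [← ha] at hdyn'
  have hmeas : ∀ t x, Measurable (H t x) := fun t x => (hdyn.adapted t x).mono (ℱ.le t) le_rfl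
  have hinit' : IsInit P (fun x ω => a • H 0 x ω) := init_scale hinit a ha0.ne' (hmeas 0)
  haveI := hdyn.prob
  haveI := hμ1.prob
  have hS := hlim ⟨Ω, mΩ, P, ℱ, B, fun t x ω => a • H t x ω, hdyn', hinit'⟩
  have hgc : Continuous fun v : I → E N => ((g (fun q => a⁻¹ • v q) : ℝ) : ℂ) :=
    Complex.continuous_ofReal.comp (g.continuous.comp
      (continuous_pi fun q => (continuous_apply q).const_smul a⁻¹))
  have hgb : ∃ C : ℝ, ∀ v : I → E N, ‖((g (fun q => a⁻¹ • v q) : ℝ) : ℂ)‖ ≤ C :=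
    ⟨‖g‖, fun v => by
      rw [Complex.norm_real]
      exact g.norm_coe_le_norm _⟩
  have hf := fdd_of_char (A := ℝ≥0 × Site d) (P := P)
    (fun t q ω => a • H (t + q.1) q.2 ω) (fun t q => (hmeas _ _).const_smul a) μ1
    (fun I u => hS I u) I (fun v => ((g (fun q => a⁻¹ • v q) : ℝ) : ℂ)) hgc hgb
  have h2 := (Complex.continuous_re.tendsto _).comp hf
  have h3 : ∀ t : ℝ≥0, (∫ ω, ((g (fun q : I => a⁻¹ • (a • H (t + q.1.1) q.1.2 ω)) : ℝ) : ℂ) ∂P).re =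
      ∫ ω, g (fun q => H (t + q.1.1) q.1.2 ω) ∂P := by
    intro t
    rw [integral_complex_ofReal, Complex.ofReal_re]
    refine integral_congr_ae (Filter.Eventually.of_forall fun ω => ?_)
    change g (fun q : I => a⁻¹ • (a • H (t + q.1.1) q.1.2 ω)) =
      g (fun q => H (t + q.1.1) q.1.2 ω)
    have h4 : (fun q : I => a⁻¹ • (a • H (t + q.1.1) q.1.2 ω)) =
        fun q : I => H (t + q.1.1) q.1.2 ω := by
      funext q
      exact inv_smul_smul₀ ha0.ne' _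
    rw [h4]
  have hσ : Measurable (fun (f : ℝ≥0 × Site d → E N) (q : ℝ≥0 × Site d) => a⁻¹ • f q) :=
    measurable_pi_lambda _ fun q => (measurable_pi_apply q).const_smul a⁻¹
  have hr : Measurable (fun (f : ℝ≥0 × Site d → E N) (q : I) => f q) :=
    measurable_pi_lambda _ fun q => measurable_pi_apply _
  have h5 : ∫ f, g (fun q => f q) ∂(μ1.map (fun f q => a⁻¹ • f q)) =
      ∫ f, g (fun q => a⁻¹ • f q) ∂μ1 :=
    integral_map hσ.aemeasurable (g.continuous.measurable.comp hr).aestronglyMeasurable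
  have h6 : (∫ f, ((g (fun q : I => a⁻¹ • f q) : ℝ) : ℂ) ∂μ1).re =
      ∫ f, g (fun q => f q) ∂(μ1.map (fun f q => a⁻¹ • f q)) := by
    rw [integral_complex_ofReal, Complex.ofReal_re, h5]
  rw [← h6]
  refine h2.congr fun t => ?_
  exact h3 t

end DynB
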