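import Pool.Agent.Lib_MP_36b788b.MSA
import Pool.Agent.Lib_MP_36b788b.CMix

/-!
# MIXSDE: the Ito system forgets its past and its initial law

PROOF. `k1` of chain_mix. Fix `k`, the solutions, `I, u, δ`. `R` with `|q.2|₁ ≤ R` for `q ∈ I`, `J = I.card`, `CF = Σ_{q∈I}(2+‖u q‖)`,
`ρ_i = P_i.map (H_i 0 0)` (second moment: `moments`, `ρ_i{0} = 0`: `ne`). chain_mix with `δ/3`: `T0c, L0`. `T0 := T0c + 1`.
Given `T ≥ T0, s1, s2`: `S := max s1 s2 + T + Σ_{q∈I}q.1 + 2`; ms_approx with `δ/3` for both solutions (`L1, L1'`); `L := max` of `L0, L1, L1'`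
if `k > 0`, `L := R` if `k = 0`; chain_mix with `Sm := S`: `h0`; take one `h` smaller than all `h0` and `≤ 1`. `idx q = ⌊(T+q.1)/h⌋₊`,
`M = 1 + sup idx`, `n_i = ⌈s_i/h⌉₊`, `F i = Fdisc I u idx i`, index set `I.image idx`. `n_ih ≤ s_i+h ≤ S`, `M h ≤ S`,
`idx q·h ≥ T+q.1-h ≥ T0c`.
`Z` is `ℱ1 (n1 h)`-measurable (`s1 ≤ n1 h`). law_path: `∫ZΠF_i(rc_{n1+i}) = ∫Z pathE F (rc_{n1})`, and with `Z = 1`, `n2`, law_chain:
`∫ΠF_i(rc'_{n2+i}) = ∫pathE F dchainLaw_{ρ2} n2 =: c`. Hence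
`|∫Z pathE F(rc_{n1}) - (∫Z)c| ≤ ∫‖pathE F(rc_{n1}) - c‖ ≤ ∫∫‖pathE F G-pathE F G'‖ dchainLaw_{ρ2} n2 dchainLaw_{ρ1} n1 ≤ δ/3`
(law_chain for the first solution). Add the two approximation errors (`‖∫Z‖ ≤ 1`).
-/

open MeasureTheory ProbabilityTheory Filter
open scoped NNReal ENNReal Topology

namespace DynB

open Dyn

private theorem MixSde_core {Ω1 Ω2 : Type} [mΩ1 : MeasurableSpace Ω1] [mΩ2 : MeasurableSpace Ω2]
    {P1 : Measure Ω1} {P2 : Measure Ω2} {N d : ℕ} {k β : ℝ}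
    {ℱ1 : Filtration ℝ≥0 mΩ1} {B1 : Site d → Fin N → Fin N → ℝ≥0 → Ω1 → ℝ}
    {H1 : ℝ≥0 → Site d → Ω1 → E N}
    {ℱ2 : Filtration ℝ≥0 mΩ2} {B2 : Site d → Fin N → Fin N → ℝ≥0 → Ω2 → ℝ}
    {H2 : ℝ≥0 → Site d → Ω2 → E N} (hβ : 0 < β)
    (hH1 : IsDynamo P1 k 1 β ℱ1 B1 H1) (hH2 : IsDynamo P2 k 1 β ℱ2 B2 H2)
    (hI1 : IsInit P1 (H1 0)) (hI2 : IsInit P2 (H2 0))
    (h : ℝ≥0) (L n1 n2 M : ℕ) (F : ℕ → (boxS d L → E N) → ℂ) (hm : ∀ i, Measurable (F i))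
    (hb : ∀ i G, ‖F i G‖ ≤ 1) (Z : Ω1 → ℂ) (hZ : Measurable[ℱ1 (n1 * h)] Z)
    (hZ1 : ∀ ω, ‖Z ω‖ ≤ 1) :
    ‖∫ ω, Z ω * ∏ i ∈ Finset.range M, F i (rc β k h L B1 (H1 0) (n1 + i) ω) ∂P1 -
      (∫ ω, Z ω ∂P1) *
        ∫ ω, (1 : ℂ) * ∏ i ∈ Finset.range M, F i (rc β k h L B2 (H2 0) (n2 + i) ω) ∂P2‖ ≤
      ∫ G, ∫ G', ‖pathE (boxNet d L) β h k (stdGaussian (E N)) ((List.range M).map F) G
          - pathE (boxNet d L) β h k (stdGaussian (E N)) ((List.range M).map F) G'‖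
        ∂(chainLaw (boxNet d L) β h k (stdGaussian (E N))
          (Measure.pi (fun _ => P2.map (H2 0 0))) n2)
        ∂(chainLaw (boxNet d L) β h k (stdGaussian (E N))
          (Measure.pi (fun _ => P1.map (H1 0 0))) n1) := by
  have hP1 := hH1.prob
  have hP2 := hH2.prob
  have hr1 : Measurable (rc β k h L B1 (H1 0) n1) :=
    (rc_adapted hβ hH1 h L n1).mono (ℱ1.le _) le_rfl
  have hr2 : Measurable (rc β k h L B2 (H2 0) n2) :=
    (rc_adapted hβ hH2 h L n2).mono (ℱ2.le _) le_rfl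
  have hZm : Measurable Z := hZ.mono (ℱ1.le _) le_rfl
  obtain ⟨hΦm, hΦb⟩ := pathE_facts (net := boxNet d L) (k := k) (ν := stdGaussian (E N)) hβ
      (NNReal.coe_nonneg h) ((List.range M).map F)
      (by
        intro f hf
        obtain ⟨i, _, rfl⟩ := List.mem_map.mp hf
        exact hm i)
      (by
        intro f hf
        obtain ⟨i, _, rfl⟩ := List.mem_map.mp hf
        exact hb i)
  rw [law_path hβ hH1 h L n1 M F hm hb Z hZ hZ1,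
    law_path hβ hH2 h L n2 M F hm hb (fun _ => 1) measurable_const (fun _ => by simp),
    ← law_chain hβ hH1 hI1 h L n1, ← law_chain hβ hH2 hI2 h L n2]
  generalize pathE (boxNet d L) β h k (stdGaussian (E N)) ((List.range M).map F) = Φ at hΦm hΦb ⊢
  have hQ1 : IsProbabilityMeasure (P1.map (rc β k h L B1 (H1 0) n1)) :=
    Measure.isProbabilityMeasure_map hr1.aemeasurable
  have hQ2 : IsProbabilityMeasure (P2.map (rc β k h L B2 (H2 0) n2)) :=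
    Measure.isProbabilityMeasure_map hr2.aemeasurable
  have e2 : ∫ ω, (1 : ℂ) * Φ (rc β k h L B2 (H2 0) n2 ω) ∂P2 =
      ∫ G', Φ G' ∂(P2.map (rc β k h L B2 (H2 0) n2)) := by
    rw [integral_map hr2.aemeasurable hΦm.aestronglyMeasurable]
    simp only [one_mul]
  rw [e2]
  set Q1 := P1.map (rc β k h L B1 (H1 0) n1) with hQ1d
  set Q2 := P2.map (rc β k h L B2 (H2 0) n2) with hQ2d
  set c : ℂ := ∫ G', Φ G' ∂Q2 with hc
  have hΦi : Integrable Φ Q2 :=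
    Integrable.of_bound (C := 1) hΦm.aestronglyMeasurable (Filter.Eventually.of_forall hΦb)
  have hcb : ‖c‖ ≤ 1 := by
    refine (norm_integral_le_of_norm_le_const (C := 1) (Filter.Eventually.of_forall hΦb)).trans ?_
    simp
  have hZi : Integrable Z P1 :=
    Integrable.of_bound (C := 1) hZm.aestronglyMeasurable (Filter.Eventually.of_forall hZ1)
  have hcomp : Measurable (fun ω => Φ (rc β k h L B1 (H1 0) n1 ω)) := hΦm.comp hr1
  have hZΦ : Integrable (fun ω => Z ω * Φ (rc β k h L B1 (H1 0) n1 ω)) P1 := by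
    refine Integrable.of_bound (C := 1) (hZm.mul hcomp).aestronglyMeasurable
      (Filter.Eventually.of_forall fun ω => ?_)
    rw [norm_mul]
    exact mul_le_one₀ (hZ1 ω) (norm_nonneg _) (hΦb _)
  have e3 : ∫ ω, Z ω * Φ (rc β k h L B1 (H1 0) n1 ω) ∂P1 - (∫ ω, Z ω ∂P1) * c =
      ∫ ω, Z ω * (Φ (rc β k h L B1 (H1 0) n1 ω) - c) ∂P1 := by
    rw [← integral_mul_const, ← integral_sub hZΦ (hZi.mul_const c)]
    refine integral_congr_ae (Filter.Eventually.of_forall fun ω => ?_)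
    show Z ω * Φ (rc β k h L B1 (H1 0) n1 ω) - Z ω * c =
      Z ω * (Φ (rc β k h L B1 (H1 0) n1 ω) - c)
    ring
  rw [e3]
  have hdm : Measurable (fun G => ‖Φ G - c‖) := (hΦm.sub measurable_const).norm
  have hdb : ∀ G, ‖Φ G - c‖ ≤ 2 := fun G => (norm_sub_le _ _).trans (by linarith [hΦb G])
  have hdi : Integrable (fun G => ‖Φ G - c‖) Q1 := by
    refine Integrable.of_bound (C := 2) hdm.aestronglyMeasurable
      (Filter.Eventually.of_forall fun G => ?_)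
    rw [norm_norm]
    exact hdb G
  have hdi' : Integrable (fun ω => ‖Φ (rc β k h L B1 (H1 0) n1 ω) - c‖) P1 := by
    refine Integrable.of_bound (C := 2) (hdm.comp hr1).aestronglyMeasurable
      (Filter.Eventually.of_forall fun ω => ?_)
    rw [norm_norm]
    exact hdb _
  calc ‖∫ ω, Z ω * (Φ (rc β k h L B1 (H1 0) n1 ω) - c) ∂P1‖
      ≤ ∫ ω, ‖Φ (rc β k h L B1 (H1 0) n1 ω) - c‖ ∂P1 := by
        refine norm_integral_le_of_norm_le hdi' (Filter.Eventually.of_forall fun ω => ?_)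
        rw [norm_mul]
        exact mul_le_of_le_one_left (norm_nonneg _) (hZ1 ω)
    _ = ∫ G, ‖Φ G - c‖ ∂Q1 := by
        rw [hQ1d, integral_map hr1.aemeasurable hdm.aestronglyMeasurable]
    _ ≤ ∫ G, ∫ G', ‖Φ G - Φ G'‖ ∂Q2 ∂Q1 := by
        have hpm : Measurable (fun q : (boxS d L → E N) × (boxS d L → E N) =>
            ‖Φ q.1 - Φ q.2‖) := ((hΦm.comp measurable_fst).sub (hΦm.comp measurable_snd)).norm
        have hpb : ∀ G G', ‖Φ G - Φ G'‖ ≤ 2 := fun G G' =>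
          (norm_sub_le _ _).trans (by linarith [hΦb G, hΦb G'])
        have hsi : ∀ G, Integrable (fun G' => ‖Φ G - Φ G'‖) Q2 := fun G => by
          refine Integrable.of_bound (C := 2)
            (measurable_const.sub hΦm).norm.aestronglyMeasurable
            (Filter.Eventually.of_forall fun G' => ?_)
          rw [norm_norm]
          exact hpb G G'
        refine integral_mono hdi ?_ fun G => ?_
        · refine Integrable.of_bound (C := 2)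
            (hpm.stronglyMeasurable.integral_prod_right' (ν := Q2)).aestronglyMeasurable
            (Filter.Eventually.of_forall fun G => ?_)
          refine (norm_integral_le_of_norm_le_const (C := 2)
            (Filter.Eventually.of_forall fun G' => ?_)).trans ?_
          · rw [norm_norm]
            exact hpb G G'
          · simp
        · show ‖Φ G - c‖ ≤ ∫ G', ‖Φ G - Φ G'‖ ∂Q2
          have e4 : Φ G - c = ∫ G', (Φ G - Φ G') ∂Q2 := by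
            rw [integral_sub (integrable_const _) hΦi]
            simp [hc]
          rw [e4]
          exact norm_integral_le_integral_norm _

private theorem MixSde_rho {Ω : Type} [mΩ : MeasurableSpace Ω] {P : Measure Ω} {N d : ℕ} {k β : ℝ}
    {ℱ : Filtration ℝ≥0 mΩ} {B : Site d → Fin N → Fin N → ℝ≥0 → Ω → ℝ}
    {H : ℝ≥0 → Site d → Ω → E N} (hH : IsDynamo P k 1 β ℱ B H) (hI : IsInit P (H 0)) :
    IsProbabilityMeasure (P.map (H 0 0)) ∧ P.map (H 0 0) {0} = 0 ∧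
      Integrable (fun x : E N => ‖x‖ ^ 2) (P.map (H 0 0)) := by
  have hP := hH.prob
  have hHm : Measurable (H 0 0) := (hH.adapted 0 0).mono (ℱ.le _) le_rfl
  refine ⟨Measure.isProbabilityMeasure_map hHm.aemeasurable, ?_, ?_⟩
  · rw [Measure.map_apply hHm (measurableSet_singleton 0)]
    exact hI.ne
  · obtain ⟨C, hC⟩ := hH.moments 2 0
    rw [integrable_map_measure (by fun_prop) hHm.aemeasurable]
    exact (hC 0 le_rfl 0).1

theorem mix_of_chain (N d : ℕ) (β k : ℝ) (hβ : 0 < β) (hk : 0 ≤ k) (hmix : ChainMix N d β k) :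
    MixProp N d k β := by
  intro S1 S2 I u δ hδ
  have hδ3 : 0 < δ / 3 := by positivity
  have hβ0 : 0 < β := hβ
  set R : ℕ := I.sup (fun q => l1 q.2 0) with hRd
  have hR : ∀ q ∈ I, l1 q.2 0 ≤ R := fun q hq => Finset.le_sup (f := fun q => l1 q.2 0) hq
  have hCF : 0 ≤ ∑ q ∈ I, (2 + ‖u q‖) := Finset.sum_nonneg fun q _ => by positivity
  obtain ⟨hp1, hz1, hi1⟩ := MixSde_rho S1.dyn S1.init
  obtain ⟨hp2, hz2, hi2⟩ := MixSde_rho S2.dyn S2.init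
  obtain ⟨T0c, L0, hT0c, hRL0, hk0, hcm⟩ := hmix (S1.P.map (S1.H 0 0))
    (S2.P.map (S2.H 0 0)) hz1 hz2 hi1 hi2 R I.card (∑ q ∈ I, (2 + ‖u q‖)) (δ / 3) hCF hδ3
  refine ⟨⟨T0c + 1, by positivity⟩, fun T hT s1 s2 Z hZ hZ1 => ?_⟩
  have hTr : T0c + 1 ≤ (T : ℝ) := by exact_mod_cast hT
  set S : ℝ≥0 := max s1 s2 + T + ∑ q ∈ I, q.1 + 2 with hSd
  have hq1 : ∀ q ∈ I, q.1 ≤ ∑ q ∈ I, q.1 := fun q hq =>
    Finset.single_le_sum (f := fun q : ℝ≥0 × Site d => q.1) (fun _ _ => zero_le) hq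
  have h12 : (1 : ℝ≥0) ≤ 2 := by norm_num
  have hS1 : ∀ q ∈ I, s1 + T + q.1 + 1 ≤ S := fun q hq =>
    add_le_add (add_le_add (add_le_add (le_max_left _ _) le_rfl) (hq1 q hq)) h12
  have hS2 : ∀ q ∈ I, s2 + T + q.1 + 1 ≤ S := fun q hq =>
    add_le_add (add_le_add (add_le_add (le_max_right _ _) le_rfl) (hq1 q hq)) h12
  obtain ⟨L1, hL1⟩ := ms_approx hβ hk S1.dyn I u S R hR (δ / 3) hδ3
  obtain ⟨L1', hL1'⟩ := ms_approx hβ hk S2.dyn I u S R hR (δ / 3) hδ3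
  obtain ⟨L, hLR, hkL, hL0, hLa, hLb⟩ : ∃ L : ℕ, R ≤ L ∧ (k = 0 → L = R) ∧ L0 ≤ L ∧
      (L1 ≤ L ∨ (k = 0 ∧ R ≤ L)) ∧ (L1' ≤ L ∨ (k = 0 ∧ R ≤ L)) := by
    by_cases hk00 : k = 0
    · exact ⟨R, le_rfl, fun _ => rfl, (hk0 hk00).le, Or.inr ⟨hk00, le_rfl⟩,
        Or.inr ⟨hk00, le_rfl⟩⟩
    · exact ⟨max L0 (max L1 L1'), hRL0.trans (le_max_left _ _), fun h => absurd h hk00,
        le_max_left _ _, Or.inl ((le_max_left _ _).trans (le_max_right _ _)),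
        Or.inl ((le_max_right _ _).trans (le_max_right _ _))⟩
  obtain ⟨h01, hh01, ha1⟩ := hL1 L hLa
  obtain ⟨h02, hh02, ha2⟩ := hL1' L hLb
  obtain ⟨h0c, hh0c, hc⟩ := hcm L hkL hL0 (S : ℝ) (NNReal.coe_nonneg S)
  obtain ⟨h, hh, hle1, hle2, hlec, hleo⟩ : ∃ h : ℝ≥0, 0 < h ∧ h ≤ h01 ∧ h ≤ h02 ∧ (h : ℝ) < h0c ∧
      h ≤ 1 := by
    refine ⟨min (min h01 h02) (min (h0c / 2).toNNReal 1), ?_, ?_, ?_, ?_, ?_⟩
    · refine lt_min (lt_min hh01 hh02) (lt_min ?_ zero_lt_one)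
      rw [Real.toNNReal_pos]
      positivity
    · exact (min_le_left _ _).trans (min_le_left _ _)
    · exact (min_le_left _ _).trans (min_le_right _ _)
    · have h5 : ((min (min h01 h02) (min (h0c / 2).toNNReal 1) : ℝ≥0) : ℝ) ≤
          ((h0c / 2).toNNReal : ℝ≥0) := by
        exact_mod_cast (min_le_right _ _).trans (min_le_left _ _)
      rw [Real.coe_toNNReal _ (by positivity)] at h5
      linarith
    · exact (min_le_right _ _).trans (min_le_right _ _)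
  have hhr : (0 : ℝ) < h := by exact_mod_cast hh
  set idx : ℝ≥0 × Site d → ℕ := fun q => ⌊(T + q.1) / h⌋₊ with hidx
  set M : ℕ := ⌊(T + ∑ q ∈ I, q.1) / h⌋₊ + 1 with hM
  have hMi : ∀ q ∈ I, ⌊(T + q.1) / h⌋₊ < M := by
    intro q hq
    refine Nat.lt_succ_of_le (Nat.floor_mono ?_)
    exact div_le_div_of_nonneg_right (add_le_add le_rfl (hq1 q hq)) zero_le
  have hfl : ∀ x : ℝ≥0, ((⌊x / h⌋₊ : ℕ) : ℝ≥0) * h ≤ x := fun x => by
    have h5 : ((⌊x / h⌋₊ : ℕ) : ℝ≥0) ≤ x / h := Nat.floor_le zero_le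
    calc ((⌊x / h⌋₊ : ℕ) : ℝ≥0) * h ≤ x / h * h := mul_le_mul_left h5 h
      _ = x := div_mul_cancel₀ x hh.ne'
  have hfl2 : ∀ x : ℝ≥0, (x : ℝ) - h ≤ ((⌊x / h⌋₊ : ℕ) : ℝ) * h := fun x => by
    have h5 : x / h < ((⌊x / h⌋₊ : ℕ) : ℝ≥0) + 1 := Nat.lt_floor_add_one _
    have h6 : ((x / h : ℝ≥0) : ℝ) < ((⌊x / h⌋₊ : ℕ) : ℝ) + 1 := by exact_mod_cast h5
    rw [NNReal.coe_div, div_lt_iff₀ hhr] at h6
    linarith
  have hce : ∀ x : ℝ≥0, x ≤ ((⌈x / h⌉₊ : ℕ) : ℝ≥0) * h := fun x => by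
    have h5 : x / h ≤ ((⌈x / h⌉₊ : ℕ) : ℝ≥0) := Nat.le_ceil _
    calc x = x / h * h := (div_mul_cancel₀ x hh.ne').symm
      _ ≤ _ := mul_le_mul_left h5 h
  have hce2 : ∀ x : ℝ≥0, ((⌈x / h⌉₊ : ℕ) : ℝ) * h ≤ (x : ℝ) + h := fun x => by
    have h5 : ((⌈x / h⌉₊ : ℕ) : ℝ≥0) < x / h + 1 := Nat.ceil_lt_add_one zero_le
    have h6 : ((⌈x / h⌉₊ : ℕ) : ℝ) < ((x / h : ℝ≥0) : ℝ) + 1 := by exact_mod_cast h5
    rw [NNReal.coe_div] at h6
    have h7 : ((⌈x / h⌉₊ : ℕ) : ℝ) * h ≤ ((x : ℝ) / h + 1) * h :=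
      mul_le_mul_of_nonneg_right h6.le hhr.le
    rw [add_mul, div_mul_cancel₀ _ hhr.ne', one_mul] at h7
    exact h7
  have hhr1 : (h : ℝ) ≤ 1 := by exact_mod_cast hleo
  have hSr : (S : ℝ) = max (s1 : ℝ) s2 + T + ((∑ q ∈ I, q.1 : ℝ≥0) : ℝ) + 2 := by
    rw [hSd]
    push_cast
    rfl
  have hsum0 : (0 : ℝ) ≤ ((∑ q ∈ I, q.1 : ℝ≥0) : ℝ) := NNReal.coe_nonneg _
  have hn1 : ((⌈s1 / h⌉₊ : ℕ) : ℝ) * h ≤ S := by
    have h5 := hce2 s1
    have h6 := le_max_left (s1 : ℝ) s2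
    have h7 : (0 : ℝ) ≤ T := T.2
    rw [hSr]
    linarith
  have hn2 : ((⌈s2 / h⌉₊ : ℕ) : ℝ) * h ≤ S := by
    have h5 := hce2 s2
    have h6 := le_max_right (s1 : ℝ) s2
    have h7 : (0 : ℝ) ≤ T := T.2
    rw [hSr]
    linarith
  have hMh : (M : ℝ) * h ≤ S := by
    have h5 : ((⌊(T + ∑ q ∈ I, q.1) / h⌋₊ : ℕ) : ℝ) * h ≤ ((T + ∑ q ∈ I, q.1 : ℝ≥0) : ℝ) := by
      exact_mod_cast hfl (T + ∑ q ∈ I, q.1)
    have h6 : (0 : ℝ) ≤ max (s1 : ℝ) s2 := le_max_of_le_left s1.2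
    rw [hSr, hM]
    push_cast at h5 ⊢
    linarith
  have hx1 := ha1 h hh hle1 T s1 M hS1 hMi Z (hZ.mono (S1.ℱ.le _) le_rfl) hZ1
  have hx2 := ha2 h hh hle2 T s2 M hS2 hMi (fun _ => 1) measurable_const (fun _ => by simp)
  have hcore := MixSde_core hβ0 S1.dyn S2.dyn S1.init S2.init h L ⌈s1 / h⌉₊ ⌈s2 / h⌉₊ M
    (Fdisc I u idx) (Fdisc_meas I u idx) (fun i G => (Fdisc_norm I u idx i G).le) Z
    (hZ.mono (S1.ℱ.mono (hce s1)) le_rfl) hZ1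
  have hmx := hc h hhr hlec ⌈s1 / h⌉₊ ⌈s2 / h⌉₊ M hn1 hn2 hMh (Fdisc I u idx) (I.image idx)
    Finset.card_image_le (Fdisc_meas I u idx) (fun i G => (Fdisc_norm I u idx i G).le)
    (fun i hi => Fdisc_one I u idx i hi) (by
      intro i hi
      refine ⟨?_, fun G G' => Fdisc_lip I u idx R hR hLR i G G'⟩
      obtain ⟨q, _, rfl⟩ := Finset.mem_image.mp hi
      have h5 := hfl2 (T + q.1)
      have h6 : (0 : ℝ) ≤ q.1 := q.1.2
      push_cast at h5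
      show T0c ≤ ((⌊(T + q.1) / h⌋₊ : ℕ) : ℝ) * h
      linarith)
  have hP1 := S1.dyn.prob
  have hZn : ‖∫ ω, Z ω ∂S1.P‖ ≤ 1 := by
    refine (norm_integral_le_of_norm_le_const (C := 1) (Filter.Eventually.of_forall hZ1)).trans ?_
    simp
  simp only [one_mul] at hx2 hcore
  have hfin := hcore.trans hmx
  set A1 := ∫ ω, Z ω * Xf' S1.H I u (s1 + T) ω ∂S1.P with hA1
  set X2 := ∫ ω, Xf' S2.H I u (s2 + T) ω ∂S2.P with hX2
  set c1 := ∫ ω, Z ω ∂S1.P with hc1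
  generalize (∫ ω, Z ω * ∏ i ∈ Finset.range M, Fdisc I u idx i
          (rc β k h L S1.B (S1.H 0) (⌈s1 / h⌉₊ + i) ω) ∂S1.P) = Y1 at hx1 hfin
  generalize (∫ ω, ∏ i ∈ Finset.range M, Fdisc I u idx i
          (rc β k h L S2.B (S2.H 0) (⌈s2 / h⌉₊ + i) ω) ∂S2.P) = Y2 at hx2 hfin
  have e : A1 - c1 * X2 = (A1 - Y1) + (Y1 - c1 * Y2) + -(c1 * (X2 - Y2)) := by ring
  rw [e]
  refine (norm_add₃_le).trans ?_
  rw [norm_neg, norm_mul]
  have h9 : ‖c1‖ * ‖X2 - Y2‖ ≤ δ / 3 :=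
    (mul_le_of_le_one_left (norm_nonneg _) hZn).trans hx2
  linarith

end DynB
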