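import Pool.Agent.Lib_MP_36b788.Sde

/-!
# SDEB: the nonlinearity `b(u) = ‖u‖^β u`

PROOF. `b_lip`: for `‖v‖ ≤ ‖u‖`: `b(u)-b(v) = ‖u‖^β(u-v) + (‖u‖^β-‖v‖^β)v` and
`(‖u‖^β-‖v‖^β)‖v‖ ≤ β‖u‖^{β-1}‖u-v‖·‖v‖ ≤ β‖u‖^β‖u-v‖` (mean value theorem, `β ≥ 1`); `‖u‖^β ≤ (‖u‖+‖v‖)^β`.
`b_L2`: `‖b(U)-b(V)‖² ≤ (1+β)²(‖U‖+‖V‖)^{2β}‖U-V‖² ≤ (1+β)²(‖U‖+‖V‖)^{2β+1}‖U-V‖`, Cauchy-Schwarz:
`≤ (1+β)²(∫(‖U‖+‖V‖)^{4β+2})^{1/2}(∫‖U-V‖²)^{1/2}`, `a^{4β+2} ≤ 1+a^p` (`p = ⌈4β+2⌉₊`), `(‖U‖+‖V‖)^p ≤ 2^p(‖U‖^p+‖V‖^p)`.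
`MemLp`: `‖b(U)‖² = ‖U‖^{2+2β} ≤ 1+‖U‖^p`.
-/

open MeasureTheory ProbabilityTheory
open scoped NNReal ENNReal Topology

namespace DynB

open Dyn

private theorem SdeB_real {β a b : ℝ} (hβ : 0 < β) (hb : 0 ≤ b) (hab : b ≤ a) :
    (a ^ β - b ^ β) * b ≤ β * a ^ β * (a - b) := by
  rcases hb.eq_or_lt with hb0 | hb0
  · rw [← hb0]
    have h1 : 0 ≤ a ^ β := Real.rpow_nonneg (hb.trans hab) β
    have h2 : 0 ≤ a := hb.trans hab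
    simp only [mul_zero, sub_zero]
    positivity
  have ha : 0 < a := lt_of_lt_of_le hb0 hab
  have hA : 0 < a ^ β := Real.rpow_pos_of_pos ha β
  have hB : 0 < b ^ β := Real.rpow_pos_of_pos hb0 β
  rcases le_total 1 β with h | h
  · have h1 := one_add_mul_self_le_rpow_one_add (s := b / a - 1) (p := β)
      (by have : 0 ≤ b / a := div_nonneg hb ha.le
          linarith) h
    have h2 : 1 + (b / a - 1) = b / a := by ring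
    rw [h2, Real.div_rpow hb ha.le] at h1
    have h3 : a ^ β * (1 + β * (b / a - 1)) ≤ b ^ β := by
      rw [le_div_iff₀ hA] at h1
      linarith
    have h4 : a ^ β - b ^ β ≤ β * a ^ β * ((a - b) / a) := by
      have e : a ^ β * (1 + β * (b / a - 1)) = a ^ β - β * a ^ β * ((a - b) / a) := by
        field_simp
        ring
      linarith
    have h5 : (a - b) / a * b ≤ a - b := by
      rw [div_mul_eq_mul_div, div_le_iff₀ ha]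
      exact mul_le_mul_of_nonneg_left hab (by linarith)
    have h6 : 0 ≤ β * a ^ β := by positivity
    calc (a ^ β - b ^ β) * b ≤ β * a ^ β * ((a - b) / a) * b := mul_le_mul_of_nonneg_right h4 hb
      _ = β * a ^ β * ((a - b) / a * b) := by ring
      _ ≤ β * a ^ β * (a - b) := mul_le_mul_of_nonneg_left h5 h6
  · have h1 := rpow_one_add_le_one_add_mul_self (s := a / b - 1) (p := β)
      (by have : 0 ≤ a / b := div_nonneg ha.le hb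
          linarith) hβ.le h
    have h2 : 1 + (a / b - 1) = a / b := by ring
    rw [h2, Real.div_rpow ha.le hb, div_le_iff₀ hB] at h1
    have h3 : a ^ β * b ≤ b ^ β * b + β * b ^ β * (a - b) := by
      have e : (1 + β * (a / b - 1)) * b ^ β * b = b ^ β * b + β * b ^ β * (a - b) := by
        field_simp
      rw [← e]
      exact mul_le_mul_of_nonneg_right h1 hb
    have h4 : b ^ β ≤ a ^ β := Real.rpow_le_rpow hb hab hβ.le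
    have h5 : β * b ^ β * (a - b) ≤ β * a ^ β * (a - b) :=
      mul_le_mul_of_nonneg_right (mul_le_mul_of_nonneg_left h4 hβ.le) (by linarith)
    have e2 : (a ^ β - b ^ β) * b = a ^ β * b - b ^ β * b := by ring
    rw [e2]
    linarith

private theorem SdeB_lip_aux {N : ℕ} {β : ℝ} (hβ : 0 < β) (u v : E N) (h : ‖v‖ ≤ ‖u‖) :
    ‖(‖u‖ ^ β) • u - (‖v‖ ^ β) • v‖ ≤ (1 + β) * (‖u‖ + ‖v‖) ^ β * ‖u - v‖ := by
  have e : (‖u‖ ^ β) • u - (‖v‖ ^ β) • v = (‖u‖ ^ β) • (u - v) + (‖u‖ ^ β - ‖v‖ ^ β) • v := by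
    rw [smul_sub, sub_smul]
    abel
  have hu : 0 ≤ ‖u‖ := norm_nonneg u
  have hv : 0 ≤ ‖v‖ := norm_nonneg v
  have h0 : 0 ≤ ‖u‖ ^ β := Real.rpow_nonneg hu β
  have h1 : ‖v‖ ^ β ≤ ‖u‖ ^ β := Real.rpow_le_rpow hv h (by linarith)
  have h2 := SdeB_real hβ hv h
  have h3 : ‖u‖ - ‖v‖ ≤ ‖u - v‖ := norm_sub_norm_le u v
  have h4 : ‖u‖ ^ β ≤ (‖u‖ + ‖v‖) ^ β := Real.rpow_le_rpow hu (by linarith) (by linarith)
  rw [e]
  calc ‖(‖u‖ ^ β) • (u - v) + (‖u‖ ^ β - ‖v‖ ^ β) • v‖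
      ≤ ‖(‖u‖ ^ β) • (u - v)‖ + ‖(‖u‖ ^ β - ‖v‖ ^ β) • v‖ := norm_add_le _ _
    _ = ‖u‖ ^ β * ‖u - v‖ + (‖u‖ ^ β - ‖v‖ ^ β) * ‖v‖ := by
      rw [norm_smul, norm_smul, Real.norm_of_nonneg h0, Real.norm_of_nonneg (by linarith)]
    _ ≤ ‖u‖ ^ β * ‖u - v‖ + β * ‖u‖ ^ β * ‖u - v‖ := by
      have : β * ‖u‖ ^ β * (‖u‖ - ‖v‖) ≤ β * ‖u‖ ^ β * ‖u - v‖ :=
        mul_le_mul_of_nonneg_left h3 (by positivity)
      linarith
    _ = (1 + β) * ‖u‖ ^ β * ‖u - v‖ := by ring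
    _ ≤ (1 + β) * (‖u‖ + ‖v‖) ^ β * ‖u - v‖ :=
      mul_le_mul_of_nonneg_right (mul_le_mul_of_nonneg_left h4 (by linarith)) (norm_nonneg _)

theorem b_lip {N : ℕ} {β : ℝ} (hβ : 0 < β) (u v : E N) :
    ‖(‖u‖ ^ β) • u - (‖v‖ ^ β) • v‖ ≤ (1 + β) * (‖u‖ + ‖v‖) ^ β * ‖u - v‖ := by
  rcases le_total ‖v‖ ‖u‖ with h | h
  · exact SdeB_lip_aux hβ u v h
  · rw [norm_sub_rev, norm_sub_rev u v, add_comm ‖u‖]
    exact SdeB_lip_aux hβ v u h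

private theorem SdeB_pow {a s : ℝ} {p : ℕ} (ha : 0 ≤ a) (hs : 0 ≤ s) (hsp : s ≤ p) :
    a ^ s ≤ 1 + a ^ p := by
  rcases le_total a 1 with h | h
  · have h1 := Real.rpow_le_one ha h hs
    have h2 := pow_nonneg ha p
    linarith
  · have h1 := Real.rpow_le_rpow_of_exponent_le h hsp
    rw [Real.rpow_natCast] at h1
    linarith

private theorem SdeB_cont (N : ℕ) {β : ℝ} (hβ : 0 < β) :
    Continuous fun u : E N => (‖u‖ ^ β) • u :=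
  (continuous_norm.rpow_const fun _ => Or.inr (by linarith)).smul continuous_id

private theorem SdeB_sq {N : ℕ} {β : ℝ} (hβ : 0 < β) (u : E N) {p : ℕ} (hp : 4 * β + 2 ≤ p) :
    ‖(‖u‖ ^ β) • u‖ ^ 2 ≤ 1 + ‖u‖ ^ p := by
  have hu : 0 ≤ ‖u‖ := norm_nonneg u
  rw [norm_smul, Real.norm_of_nonneg (Real.rpow_nonneg hu β)]
  have e : (‖u‖ ^ β * ‖u‖) ^ 2 = ‖u‖ ^ ((β + 1) * (2 : ℕ) : ℝ) := by
    rw [Real.rpow_mul hu, Real.rpow_natCast]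
    congr 1
    rw [Real.rpow_add_one' hu (by linarith)]
  rw [e]
  refine SdeB_pow hu (by push_cast; linarith) ?_
  push_cast
  linarith

private theorem SdeB_cs {Ω : Type} [MeasurableSpace Ω] (P : Measure Ω) (f g : Ω → ℝ)
    (hf0 : ∀ ω, 0 ≤ f ω) (hg0 : ∀ ω, 0 ≤ g ω) (hf : MemLp f 2 P) (hg : MemLp g 2 P) :
    ∫ ω, f ω * g ω ∂P ≤ Real.sqrt (∫ ω, f ω ^ 2 ∂P) * Real.sqrt (∫ ω, g ω ^ 2 ∂P) := by
  have h2 : (2 : ℝ).HolderConjugate 2 := Real.HolderConjugate.two_two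
  have e2 : ENNReal.ofReal 2 = 2 := by simp
  rw [← e2] at hf hg
  have h := integral_mul_le_Lp_mul_Lq_of_nonneg h2
    (Filter.Eventually.of_forall hf0) (Filter.Eventually.of_forall hg0) hf hg
  simp only [Real.rpow_two] at h
  rw [Real.sqrt_eq_rpow, Real.sqrt_eq_rpow]
  exact h

theorem b_L2 (N : ℕ) (β : ℝ) (hβ : 0 < β) (M : ℝ) (hM : 0 ≤ M) : ∃ C : ℝ, 0 < C ∧
    ∀ {Ω : Type} [MeasurableSpace Ω] (P : Measure Ω) [IsProbabilityMeasure P] (U V : Ω → E N),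
      AEStronglyMeasurable U P → AEStronglyMeasurable V P →
      Integrable (fun ω => ‖U ω‖ ^ ⌈4 * β + 2⌉₊) P → Integrable (fun ω => ‖V ω‖ ^ ⌈4 * β + 2⌉₊) P →
      ∫ ω, ‖U ω‖ ^ ⌈4 * β + 2⌉₊ ∂P ≤ M → ∫ ω, ‖V ω‖ ^ ⌈4 * β + 2⌉₊ ∂P ≤ M →
      MemLp (fun ω => (‖U ω‖ ^ β) • U ω) 2 P ∧
      ∫ ω, ‖(‖U ω‖ ^ β) • U ω‖ ^ 2 ∂P ≤ C ∧
      ∫ ω, ‖(‖U ω‖ ^ β) • U ω - (‖V ω‖ ^ β) • V ω‖ ^ 2 ∂P ≤
        C * Real.sqrt (∫ ω, ‖U ω - V ω‖ ^ 2 ∂P) := by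
  have hp : 4 * β + 2 ≤ (⌈4 * β + 2⌉₊ : ℝ) := Nat.le_ceil _
  generalize ⌈4 * β + 2⌉₊ = p at *
  refine ⟨(1 + M) + (1 + β) ^ 2 * Real.sqrt (1 + 2 ^ p * (M + M)), by positivity, ?_⟩
  intro Ω _ P _ U V hUm hVm hUi hVi hUM hVM
  have hsq : 0 ≤ (1 + β) ^ 2 * Real.sqrt (1 + 2 ^ p * (M + M)) := by positivity
  have hdom : Integrable (fun ω => 1 + ‖U ω‖ ^ p) P := (integrable_const 1).add hUi
  have hbm : AEStronglyMeasurable (fun ω => (‖U ω‖ ^ β) • U ω) P :=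
    (SdeB_cont N hβ).comp_aestronglyMeasurable hUm
  refine ⟨?_, ?_, ?_⟩
  · rw [memLp_two_iff_integrable_sq_norm hbm]
    refine hdom.mono' (hbm.norm.pow 2) (Filter.Eventually.of_forall fun ω => ?_)
    rw [Real.norm_of_nonneg (sq_nonneg _)]
    exact SdeB_sq hβ (U ω) hp
  · have h1 : ∫ ω, ‖(‖U ω‖ ^ β) • U ω‖ ^ 2 ∂P ≤ ∫ ω, (1 + ‖U ω‖ ^ p) ∂P :=
      integral_mono_of_nonneg (Filter.Eventually.of_forall fun ω => sq_nonneg _) hdom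
        (Filter.Eventually.of_forall fun ω => SdeB_sq hβ (U ω) hp)
    rw [integral_add (integrable_const 1) hUi] at h1
    simp only [integral_const, probReal_univ, smul_eq_mul, mul_one] at h1
    linarith
  · -- the dominating function
    have hD : Integrable (fun ω => 1 + 2 ^ p * (‖U ω‖ ^ p + ‖V ω‖ ^ p)) P :=
      (integrable_const 1).add ((hUi.add hVi).const_mul _)
    have hDi : ∫ ω, (1 + 2 ^ p * (‖U ω‖ ^ p + ‖V ω‖ ^ p)) ∂P ≤ 1 + 2 ^ p * (M + M) := by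
      have hS : Integrable (fun ω => ‖U ω‖ ^ p + ‖V ω‖ ^ p) P := hUi.add hVi
      rw [integral_add (integrable_const 1) (hS.const_mul _), integral_const_mul,
        integral_add hUi hVi]
      simp only [integral_const, probReal_univ, smul_eq_mul, mul_one]
      have : (2 : ℝ) ^ p * (∫ ω, ‖U ω‖ ^ p ∂P + ∫ ω, ‖V ω‖ ^ p ∂P) ≤ 2 ^ p * (M + M) :=
        mul_le_mul_of_nonneg_left (add_le_add hUM hVM) (by positivity)
      linarith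
    have hpt : ∀ ω, ∀ s : ℝ, 0 ≤ s → s ≤ p →
        (‖U ω‖ + ‖V ω‖) ^ s ≤ 1 + 2 ^ p * (‖U ω‖ ^ p + ‖V ω‖ ^ p) := by
      intro ω s hs hsp
      have h1 := SdeB_pow (a := ‖U ω‖ + ‖V ω‖) (by positivity) hs hsp
      have h2 := add_pow_le (norm_nonneg (U ω)) (norm_nonneg (V ω)) p
      have h3 : (2 : ℝ) ^ (p - 1) * (‖U ω‖ ^ p + ‖V ω‖ ^ p) ≤ 2 ^ p * (‖U ω‖ ^ p + ‖V ω‖ ^ p) :=
        mul_le_mul_of_nonneg_right (pow_le_pow_right₀ (by norm_num) (Nat.sub_le _ _)) (by positivity)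
      linarith
    have hgm : AEStronglyMeasurable (fun ω => ‖U ω - V ω‖) P := (hUm.sub hVm).norm
    have hfm : AEStronglyMeasurable (fun ω => (‖U ω‖ + ‖V ω‖) ^ (2 * β + 1)) P := by
      have hc : Continuous fun x : ℝ => x ^ (2 * β + 1) :=
        continuous_id.rpow_const fun _ => Or.inr (by linarith)
      exact hc.comp_aestronglyMeasurable (hUm.norm.add hVm.norm)
    have hf2 : ∀ ω, ((‖U ω‖ + ‖V ω‖) ^ (2 * β + 1)) ^ 2 ≤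
        1 + 2 ^ p * (‖U ω‖ ^ p + ‖V ω‖ ^ p) := by
      intro ω
      have e : ((‖U ω‖ + ‖V ω‖) ^ (2 * β + 1)) ^ 2 = (‖U ω‖ + ‖V ω‖) ^ ((2 * β + 1) * (2 : ℕ) : ℝ) := by
        rw [Real.rpow_mul (by positivity), Real.rpow_natCast]
      rw [e]
      exact hpt ω _ (by push_cast; linarith) (by push_cast; linarith)
    have hg2 : ∀ ω, ‖U ω - V ω‖ ^ 2 ≤ 1 + 2 ^ p * (‖U ω‖ ^ p + ‖V ω‖ ^ p) := by
      intro ω
      have h1 : ‖U ω - V ω‖ ≤ ‖U ω‖ + ‖V ω‖ := norm_sub_le _ _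
      have h2 := hpt ω 2 (by norm_num) (by linarith)
      rw [Real.rpow_two] at h2
      exact (pow_le_pow_left₀ (norm_nonneg _) h1 2).trans h2
    have hfL : MemLp (fun ω => (‖U ω‖ + ‖V ω‖) ^ (2 * β + 1)) 2 P := by
      rw [memLp_two_iff_integrable_sq hfm]
      refine hD.mono' (hfm.pow 2) (Filter.Eventually.of_forall fun ω => ?_)
      rw [Real.norm_of_nonneg (sq_nonneg _)]
      exact hf2 ω
    have hgL : MemLp (fun ω => ‖U ω - V ω‖) 2 P := by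
      rw [memLp_two_iff_integrable_sq hgm]
      refine hD.mono' (hgm.pow 2) (Filter.Eventually.of_forall fun ω => ?_)
      rw [Real.norm_of_nonneg (sq_nonneg _)]
      exact hg2 ω
    have hCS : ∫ ω, (‖U ω‖ + ‖V ω‖) ^ (2 * β + 1) * ‖U ω - V ω‖ ∂P ≤
        Real.sqrt (∫ ω, ((‖U ω‖ + ‖V ω‖) ^ (2 * β + 1)) ^ 2 ∂P) *
          Real.sqrt (∫ ω, ‖U ω - V ω‖ ^ 2 ∂P) := by
      exact SdeB_cs P _ _ (fun ω => Real.rpow_nonneg (by positivity) _) (fun ω => norm_nonneg _)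
        hfL hgL
    have hI : Integrable (fun ω => (‖U ω‖ + ‖V ω‖) ^ (2 * β + 1) * ‖U ω - V ω‖) P :=
      hfL.integrable_mul hgL
    have hmain : ∫ ω, ‖(‖U ω‖ ^ β) • U ω - (‖V ω‖ ^ β) • V ω‖ ^ 2 ∂P ≤
        ∫ ω, (1 + β) ^ 2 * ((‖U ω‖ + ‖V ω‖) ^ (2 * β + 1) * ‖U ω - V ω‖) ∂P := by
      refine integral_mono_of_nonneg (Filter.Eventually.of_forall fun ω => sq_nonneg _)
        (hI.const_mul _) (Filter.Eventually.of_forall fun ω => ?_)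
      set a := ‖U ω‖ + ‖V ω‖ with ha
      have ha0 : 0 ≤ a := by positivity
      have h1 := b_lip hβ (U ω) (V ω)
      have h3 : ‖U ω - V ω‖ ≤ a := norm_sub_le _ _
      have h4 : a ^ (2 * β + 1) = (a ^ β) ^ 2 * a := by
        rw [Real.rpow_add_one' ha0 (by linarith), mul_comm 2 β, Real.rpow_mul ha0, Real.rpow_two]
      change ‖(‖U ω‖ ^ β) • U ω - (‖V ω‖ ^ β) • V ω‖ ^ 2 ≤
        (1 + β) ^ 2 * (a ^ (2 * β + 1) * ‖U ω - V ω‖)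
      have h5 : 0 ≤ (1 + β) ^ 2 * (a ^ β) ^ 2 * ‖U ω - V ω‖ := by positivity
      calc ‖(‖U ω‖ ^ β) • U ω - (‖V ω‖ ^ β) • V ω‖ ^ 2
          ≤ ((1 + β) * a ^ β * ‖U ω - V ω‖) ^ 2 := pow_le_pow_left₀ (norm_nonneg _) h1 2
        _ = (1 + β) ^ 2 * (a ^ β) ^ 2 * ‖U ω - V ω‖ * ‖U ω - V ω‖ := by ring
        _ ≤ (1 + β) ^ 2 * (a ^ β) ^ 2 * ‖U ω - V ω‖ * a := mul_le_mul_of_nonneg_left h3 h5
        _ = (1 + β) ^ 2 * (a ^ (2 * β + 1) * ‖U ω - V ω‖) := by rw [h4]; ring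
    refine hmain.trans ?_
    rw [integral_const_mul]
    have h6 : ∫ ω, ((‖U ω‖ + ‖V ω‖) ^ (2 * β + 1)) ^ 2 ∂P ≤ 1 + 2 ^ p * (M + M) :=
      (integral_mono_of_nonneg (Filter.Eventually.of_forall fun ω => sq_nonneg _) hD
        (Filter.Eventually.of_forall hf2)).trans hDi
    have h7 := Real.sqrt_le_sqrt h6
    have h8 : 0 ≤ Real.sqrt (∫ ω, ‖U ω - V ω‖ ^ 2 ∂P) := Real.sqrt_nonneg _
    calc (1 + β) ^ 2 * ∫ ω, (‖U ω‖ + ‖V ω‖) ^ (2 * β + 1) * ‖U ω - V ω‖ ∂P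
        ≤ (1 + β) ^ 2 * (Real.sqrt (∫ ω, ((‖U ω‖ + ‖V ω‖) ^ (2 * β + 1)) ^ 2 ∂P) *
          Real.sqrt (∫ ω, ‖U ω - V ω‖ ^ 2 ∂P)) := mul_le_mul_of_nonneg_left hCS (sq_nonneg _)
      _ ≤ (1 + β) ^ 2 * (Real.sqrt (1 + 2 ^ p * (M + M)) *
          Real.sqrt (∫ ω, ‖U ω - V ω‖ ^ 2 ∂P)) :=
        mul_le_mul_of_nonneg_left (mul_le_mul_of_nonneg_right h7 h8) (sq_nonneg _)
      _ = (1 + β) ^ 2 * Real.sqrt (1 + 2 ^ p * (M + M)) *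
          Real.sqrt (∫ ω, ‖U ω - V ω‖ ^ 2 ∂P) := by ring
      _ ≤ ((1 + M) + (1 + β) ^ 2 * Real.sqrt (1 + 2 ^ p * (M + M))) *
          Real.sqrt (∫ ω, ‖U ω - V ω‖ ^ 2 ∂P) :=
        mul_le_mul_of_nonneg_right (by linarith) h8

end DynB
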